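import Pool.Agent.U671.PG.Glob

/-!
# The abstract main theorem
-/

set_option autoImplicit false

namespace Pool.Agent.U671.PG

open Equiv Finset Pool.Agent.N606.ST

open scoped Classical

set_option linter.unusedSectionVars false

variable {Ω Pt Ln : Type} [Fintype Ω] [Fintype Pt] [Fintype Ln]

variable {n : ℕ} {E : Ln → Finset Pt} {D : Ln → Finset Ω} {i : Pt → Perm Ω}

/-- the bad triples of collinear points -/
noncomputable def badT (E : Ln → Finset Pt) (i : Pt → Perm Ω) : Finset (Pt × Pt × Pt) :=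
  univ.filter fun t => (∃ l, t.1 ∈ E l ∧ t.2.1 ∈ E l ∧ t.2.2 ∈ E l) ∧ Bad i t.1 t.2.1 t.2.2

theorem sum_bd (h : Fr n E D i) : ∑ l, bd E i l ≤ (badT E i).card := by
  have h1 : (univ.biUnion fun l : Ln =>
      ((E l ×ˢ E l ×ˢ E l).filter fun t => Bad i t.1 t.2.1 t.2.2)).card = ∑ l, bd E i l := by
    apply card_biUnion
    intro l _ m _ hlm
    rw [Function.onFun, Finset.disjoint_left]
    rintro ⟨P, Q, R⟩ h1 h2
    simp only [mem_filter, mem_product] at h1 h2
    have hPQ : P ≠ Q := by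
      intro hPQ
      apply h1.2
      rw [hPQ, (h.inv l).inv, one_mul, (h.inv l).inv]
    exact hlm (h.uniq l m P Q hPQ h1.1.1 h1.1.2.1 h2.1.1 h2.1.2.1)
  rw [← h1]
  apply card_le_card
  intro t ht
  rw [mem_biUnion] at ht
  obtain ⟨l, _, ht⟩ := ht
  simp only [mem_filter, mem_product] at ht
  rw [badT, mem_filter]
  exact ⟨mem_univ _, ⟨l, ht.1.1, ht.1.2.1, ht.1.2.2⟩, ht.2⟩

/-- polynomial inequalities -/
theorem num1 {n b T : ℕ} (hn : 100 ≤ n) (h1 : b * (n - 1) ^ 3 ≤ 1150 * T)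
    (h2 : 100000 * T < n ^ 5) : 84 * b < n ^ 2 := by
  by_contra hcon
  push Not at hcon
  obtain ⟨m, rfl⟩ : ∃ m, n = m + 100 := ⟨n - 100, by omega⟩
  have e1 : m + 100 - 1 = m + 99 := by omega
  rw [e1] at h1
  have h3 : (m + 100) ^ 2 * (m + 99) ^ 3 ≤ 84 * b * (m + 99) ^ 3 :=
    Nat.mul_le_mul_right _ hcon
  have h4 : 100000 * ((m + 100) ^ 2 * (m + 99) ^ 3) < 96600 * (m + 100) ^ 5 := by
    nlinarith
  zify at h4
  have h5 : (0 : ℤ) ≤ 100000 * (((m : ℤ) + 100) ^ 2 * (m + 99) ^ 3) - 96600 * (m + 100) ^ 5 := by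
    ring_nf
    positivity
  linarith

theorem num2 {n b N : ℕ} (hn : 100 ≤ n) (h1 : 84 * b < n ^ 2)
    (h2 : 1150 * N ≤ 1150 * n ^ 2 + (n ^ 2 + n + 1) * (14 * (n + 1) ^ 2) +
      b * (1150 * (n + 1) ^ 2)) : 40 * N ≤ n ^ 4 + 40 * n ^ 2 := by
  obtain ⟨m, rfl⟩ : ∃ m, n = m + 100 := ⟨n - 100, by omega⟩
  have h3 : 84 * b * (1150 * (m + 100 + 1) ^ 2) ≤
      (m + 100) ^ 2 * (1150 * (m + 100 + 1) ^ 2) := Nat.mul_le_mul_right _ h1.le
  have h4 : 40 * (84 * (((m + 100) ^ 2 + (m + 100) + 1) * (14 * (m + 100 + 1) ^ 2))) +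
      40 * ((m + 100) ^ 2 * (1150 * (m + 100 + 1) ^ 2)) ≤ 84 * 1150 * (m + 100) ^ 4 := by
    zify
    have h5 : (0 : ℤ) ≤ 84 * 1150 * ((m : ℤ) + 100) ^ 4 -
        (40 * (84 * ((((m : ℤ) + 100) ^ 2 + (m + 100) + 1) * (14 * (m + 100 + 1) ^ 2))) +
        40 * (((m : ℤ) + 100) ^ 2 * (1150 * (m + 100 + 1) ^ 2))) := by
      ring_nf
      positivity
    linarith
  have h6 : 84 * 1150 * (40 * N) ≤ 84 * 1150 * ((m + 100) ^ 4 + 40 * (m + 100) ^ 2) := by
    nlinarith
  exact Nat.le_of_mul_le_mul_left h6 (by norm_num)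

theorem num3 {n N T : ℕ} (hn : 100 ≤ n) (h1 : 40 * N ≤ n ^ 4 + 40 * n ^ 2)
    (h2 : n ^ 6 ≤ T + 3 * (N * n ^ 2) + n ^ 4 * (n + 1)) : 914 * n ^ 6 ≤ 1000 * T := by
  obtain ⟨m, rfl⟩ : ∃ m, n = m + 100 := ⟨n - 100, by omega⟩
  have h3 : 40 * N * (m + 100) ^ 2 ≤ ((m + 100) ^ 4 + 40 * (m + 100) ^ 2) * (m + 100) ^ 2 :=
    Nat.mul_le_mul_right _ h1
  have h4 : 1000 * (3 * (((m + 100) ^ 4 + 40 * (m + 100) ^ 2) * (m + 100) ^ 2)) +
      40 * 1000 * ((m + 100) ^ 4 * (m + 100 + 1)) + 40 * 914 * (m + 100) ^ 6 ≤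
      40 * 1000 * (m + 100) ^ 6 := by
    zify
    have h5 : (0 : ℤ) ≤ 40 * 1000 * ((m : ℤ) + 100) ^ 6 -
      (1000 * (3 * ((((m : ℤ) + 100) ^ 4 + 40 * (m + 100) ^ 2) * (m + 100) ^ 2)) +
      40 * 1000 * (((m : ℤ) + 100) ^ 4 * (m + 100 + 1)) + 40 * 914 * (m + 100) ^ 6) := by
      ring_nf
      positivity
    linarith
  have h6 : 40 * (914 * (m + 100) ^ 6) ≤ 40 * (1000 * T) := by
    nlinarith
  exact Nat.le_of_mul_le_mul_left h6 (by norm_num)

/-- The main theorem on the involutions of an oval. -/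
theorem main (h : Fr n E D i) (hn : 100 ≤ n) (hT : 100000 * (badT E i).card < n ^ 5) :
    IsPrimePow n := by
  obtain ⟨𝒢, G, k⟩ := exists_GD h (by omega)
  obtain ⟨gd, hgd⟩ : ∃ gd : Ln → Prop, gd = fun l => 1150 * bd E i l ≤ (D l).card ^ 3 :=
    ⟨_, rfl⟩
  rw [← hgd] at k
  obtain ⟨b, hb⟩ : ∃ b, b = (univ.filter fun l => ¬ gd l).card := ⟨_, rfl⟩
  -- few lines are not good
  have hb1 : b * (n - 1) ^ 3 ≤ 1150 * (badT E i).card := by
    have h1 : ∀ l ∈ univ.filter fun l => ¬ gd l, (n - 1) ^ 3 ≤ 1150 * bd E i l := by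
      intro l hl
      rw [mem_filter, hgd] at hl
      have h2 := (h.cD' l).1
      have h3 : (n - 1) ^ 3 ≤ (D l).card ^ 3 := Nat.pow_le_pow_left (by omega) 3
      omega
    have h2 := card_nsmul_le_sum _ _ _ h1
    rw [smul_eq_mul, ← mul_sum] at h2
    have h3 : ∑ l ∈ univ.filter (fun l => ¬ gd l), bd E i l ≤ ∑ l, bd E i l :=
      sum_le_sum_of_subset (filter_subset _ _)
    have h4 := sum_bd h
    rw [hb]
    omega
  have hb2 : 84 * b < n ^ 2 := num1 hn hb1 hT
  have hNF := card_NF h k (by omega)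
  rw [← hb] at hNF
  have hN := num2 hn hb2 hNF
  have hTT := num3 hn hN (card_TT (𝒢 := 𝒢) h (by omega))
  have hle := TT_le h k (by omega)
  have hX := card_XX h k (by omega)
  set X := XX G with hXdef
  have hX2 : X.card ^ 2 ≤ n ^ 6 := by
    have h1 : X.card ≤ n ^ 3 := by omega
    calc X.card ^ 2 ≤ (n ^ 3) ^ 2 := Nat.pow_le_pow_left h1 2
      _ = n ^ 6 := by ring
  have hn6 : 0 < n ^ 6 := by positivity
  -- the group
  obtain ⟨H, hH1, hH2⟩ := exists_group X (by omega)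
  have hH3 : (univ.filter fun g => g ∈ H).card < 2 * ((n + 1) * n * (n - 1)) := by
    have h1 : (n + 1) * n * (n - 1) + n = n ^ 3 := by
      obtain ⟨m, rfl⟩ : ∃ m, n = m + 1 := ⟨n - 1, by omega⟩
      rw [Nat.add_sub_cancel]
      ring
    omega
  -- most of `X` is in `H`
  have hXH : 1000 * (X.filter fun g => g ∉ H).card ≤ 129 * X.card := by
    have h1 : ∀ g ∈ X.filter fun g => g ∉ H, 2 * X.card ≤ 3 * wt X g := by
      intro g hg
      exact hH1 g (mem_filter.1 hg).2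
    have h2 := card_nsmul_le_sum _ _ _ h1
    rw [smul_eq_mul, ← mul_sum] at h2
    have h3 : ∑ g ∈ X.filter (fun g => g ∉ H), wt X g ≤ ∑ g ∈ X, wt X g :=
      sum_le_sum_of_subset (filter_subset _ _)
    rw [sum_wt] at h3
    have h4 : 1000 * (badPairs X).card ≤ 86 * X.card ^ 2 := by omega
    have h5 : 0 < X.card := by
      rcases Nat.eq_zero_or_pos X.card with h0 | h0
      · rw [h0] at hle
        omega
      · exact h0
    have h6 : (1000 * (X.filter fun g => g ∉ H).card) * X.card ≤ (129 * X.card) * X.card := by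
      nlinarith
    exact Nat.le_of_mul_le_mul_right h6 h5
  -- the good lines whose group is not contained in `H`
  set C : Finset Ln := univ.filter fun l => gd l ∧ ¬ G l ≤ H with hC
  have hC1 : C.card * (n - 1) ≤ 2 * (X.filter fun g => g ∉ H).card := by
    have h1 : ∀ l ∈ C, n - 1 ≤ 2 * ((fin (G l)).filter fun g => g ∉ H).card := by
      intro l hl
      rw [hC, mem_filter] at hl
      obtain ⟨_, hl1, hl2⟩ := hl
      rw [SetLike.not_le_iff_exists] at hl2
      obtain ⟨g₀, hg₀, hg₀'⟩ := hl2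
      have h2 : ((fin (G l)).filter fun g => ¬ (g ∉ H)).card ≤
          ((fin (G l)).filter fun g => g ∉ H).card := by
        apply card_le_card_of_injOn fun g => g₀ * g
        · intro g hg
          have hg := mem_filter.1 (mem_coe.1 hg)
          rw [mem_fin, not_not] at hg
          apply mem_coe.2
          rw [mem_filter, mem_fin]
          refine ⟨(G l).mul_mem hg₀ hg.1, fun h3 => hg₀' ?_⟩
          have h4 := H.mul_mem h3 (H.inv_mem hg.2)
          rwa [mul_inv_cancel_right] at h4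
        · intro g _ g' _ hgg
          exact mul_left_cancel hgg
      have h3 := card_filter_add_card_filter_not (s := fin (G l)) (fun g => g ∉ H)
      have h4 := card_fin_ge h k hl1 (by omega)
      have h5 := (h.cD' l).1
      omega
    have h2 := card_nsmul_le_sum _ _ _ h1
    rw [smul_eq_mul, ← mul_sum] at h2
    have h3 : ∑ l ∈ C, ((fin (G l)).filter fun g => g ∉ H).card =
        (C.biUnion fun l => (fin (G l)).filter fun g => g ∉ H).card := by
      symm
      apply card_biUnion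
      intro l _ m _ hlm
      rw [Function.onFun, Finset.disjoint_left]
      intro g hg hg'
      rw [mem_filter, mem_fin] at hg hg'
      apply hg.2
      rw [inter_eq h k (by omega) hlm hg.1 hg'.1]
      exact H.one_mem
    have h4 : (C.biUnion fun l => (fin (G l)).filter fun g => g ∉ H) ⊆
        X.filter fun g => g ∉ H := by
      intro g hg
      rw [mem_biUnion] at hg
      obtain ⟨l, _, hg⟩ := hg
      rw [mem_filter, mem_fin] at hg
      rw [mem_filter, hXdef, mem_XX]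
      exact ⟨⟨l, hg.1⟩, hg.2⟩
    have h5 := card_le_card h4
    rw [h3] at h2
    omega
  have hC2 : 100 * C.card ≤ 27 * n ^ 2 := by
    have h1 : 1000 * (X.filter fun g => g ∉ H).card ≤ 129 * n ^ 3 := by omega
    obtain ⟨m, rfl⟩ : ∃ m, n = m + 100 := ⟨n - 100, by omega⟩
    have e1 : m + 100 - 1 = m + 99 := by omega
    rw [e1] at hC1
    have h2 : 1000 * (C.card * (m + 99)) ≤ 258 * (m + 100) ^ 3 := by omega
    have h3 : 258 * (m + 100) ^ 3 ≤ 270 * (m + 100) ^ 2 * (m + 99) := by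
      zify
      have h5 : (0 : ℤ) ≤ 270 * ((m : ℤ) + 100) ^ 2 * (m + 99) - 258 * (m + 100) ^ 3 := by
        ring_nf
        positivity
      linarith
    have h4 : (10 * (100 * C.card)) * (m + 99) ≤ (10 * (27 * (m + 100) ^ 2)) * (m + 99) := by
      nlinarith
    have h5 := Nat.le_of_mul_le_mul_right h4 (by omega)
    omega
  -- the lines that are not used
  set 𝒩 : Finset Ln := (univ.filter fun l => ¬ gd l) ∪ C with h𝒩
  have h𝒩c : 10 * 𝒩.card ≤ 3 * n ^ 2 := by
    have h1 := card_union_le (univ.filter fun l => ¬ gd l) C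
    rw [← h𝒩] at h1
    omega
  have h𝒩m : ∀ l, l ∉ 𝒩 → gd l ∧ G l ≤ H := by
    intro l hl
    rw [h𝒩, mem_union, hC, mem_filter, mem_filter] at hl
    push Not at hl
    have h1 : gd l := hl.1 (mem_univ _)
    exact ⟨h1, hl.2 (mem_univ _) h1⟩
  -- a point on few of these lines
  obtain ⟨A, hA⟩ : ∃ A : Ω, 10 * (𝒩.filter fun l => A ∉ D l).card ≤ 6 * n := by
    by_contra hcon
    push Not at hcon
    have h1 : ∑ A : Ω, (𝒩.filter fun l => A ∉ D l).card = ∑ l ∈ 𝒩, (univ \ D l).card := by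
      simp only [card_filter]
      rw [sum_comm]
      apply sum_congr rfl
      intro l _
      rw [← card_filter]
      congr 1
      ext A
      simp
    have h2 : ∑ l ∈ 𝒩, (univ \ D l).card ≤ ∑ l ∈ 𝒩, 2 := sum_le_sum fun l _ => h.cD l
    have h3 : ∑ A : Ω, (6 * n + 1) ≤ ∑ A : Ω, 10 * (𝒩.filter fun l => A ∉ D l).card :=
      sum_le_sum fun A _ => hcon A
    rw [← mul_sum, h1, sum_const, smul_eq_mul, card_univ, h.cΩ] at h3
    rw [sum_const, smul_eq_mul] at h2
    nlinarith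
  -- the secants through `A`
  have hs := h.sec A
  have hne : Nonempty Ln := by
    rw [← Fintype.card_pos_iff, h.cL]
    omega
  choose! s hs1 hs2 using hs
  have hsinj : ∀ B, A ≠ B → ∀ B', A ≠ B' → s B = s B' → B = B' := by
    intro B hB B' hB' hBB
    have h1 := hs2 B' hB'
    rw [← hBB] at h1
    rcases h.two hB (hs1 B hB) (hs2 B hB) h1 with h2 | h2
    · exact absurd h2.symm hB'
    · exact h2.symm
  set Y : Finset Ω := (univ.erase A).filter fun B => s B ∈ 𝒩 with hY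
  have hYc : Y.card ≤ (𝒩.filter fun l => A ∉ D l).card := by
    apply card_le_card_of_injOn s
    · intro B hB
      have hB := mem_filter.1 (mem_coe.1 hB)
      rw [mem_erase] at hB
      exact mem_coe.2 (mem_filter.2 ⟨hB.2, hs1 B hB.1.1.symm⟩)
    · intro B hB B' hB' hBB
      have hB := mem_filter.1 (mem_coe.1 hB)
      have hB' := mem_filter.1 (mem_coe.1 hB')
      rw [mem_erase] at hB hB'
      exact hsinj B hB.1.1.symm B' hB'.1.1.symm hBB
  have hZc : 1 < ((univ.erase A).filter fun B => ¬ (s B ∈ 𝒩)).card := by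
    have h1 := card_filter_add_card_filter_not (s := (univ.erase A : Finset Ω))
      (fun B => s B ∈ 𝒩)
    rw [card_erase_of_mem (mem_univ _), card_univ, h.cΩ, ← hY] at h1
    omega
  obtain ⟨B₁, hB₁, B₂, hB₂, hB12⟩ := one_lt_card.1 hZc
  rw [mem_filter, mem_erase] at hB₁ hB₂
  have hsec : ∀ B, A ≠ B → s B ∉ 𝒩 → ∀ C D, C ≠ A → C ≠ B → D ≠ A → D ≠ B →
      ∃ g ∈ H, g A = A ∧ g B = B ∧ g C = D := by
    intro B hB hsB P Q hPA hPB hQA hQB
    obtain ⟨h1, h2⟩ := h𝒩m _ hsB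
    have h3 : ∀ P, P ≠ A → P ≠ B → P ∈ D (s B) := by
      intro P hPA hPB
      by_contra h4
      rcases h.two hB (hs1 B hB) (hs2 B hB) h4 with h5 | h5
      · exact hPA h5
      · exact hPB h5
    obtain ⟨g, hg, h4⟩ := k.tr _ h1 P (h3 P hPA hPB) Q (h3 Q hQA hQB)
    exact ⟨g, h2 hg, (k.ld _).off g hg A (hs1 B hB), (k.ld _).off g hg B (hs2 B hB), h4⟩
  -- a line not through `A`
  obtain ⟨l, hl1, hl2⟩ : ∃ l, A ∈ D l ∧ l ∉ 𝒩 := by
    by_contra hcon
    push Not at hcon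
    have h1 : (univ.filter fun l => ¬ (A ∉ D l)) ⊆ 𝒩 := by
      intro l hl
      rw [mem_filter, not_not] at hl
      exact hcon l hl.2
    have h2 := card_filter_add_card_filter_not (s := (univ : Finset Ln)) (fun l => A ∉ D l)
    rw [h.thru A, card_univ, h.cL] at h2
    have h3 := card_le_card h1
    have h4 : 0 < n ^ 2 := by positivity
    omega
  obtain ⟨h3, h4⟩ := h𝒩m l hl2
  obtain ⟨B, hB, hBA⟩ : ∃ B ∈ D l, B ≠ A := by
    have h5 := (h.cD' l).1
    obtain ⟨B, hB, hBA⟩ := exists_mem_ne (s := D l) (by omega) A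
    exact ⟨B, hB, hBA⟩
  obtain ⟨g, hg, hgA⟩ := k.tr l h3 A hl1 B hB
  exact isPrimePow_of_secants h.cΩ (by omega) hH3 hB₁.1.1.symm hB12
    (hsec B₁ hB₁.1.1.symm hB₁.2) (hsec B₂ hB₂.1.1.symm hB₂.2) ⟨g, h4 hg, by rw [hgA]; exact hBA⟩

end Pool.Agent.U671.PG
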