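import Pool.Agent.U671.PG.Defs
import Pool.Agent.U671.PG.Main
import Pool.Agent.N606.ST.Planes

/-!
# Ovals in projective planes
-/

set_option autoImplicit false

namespace Pool.Agent.U671.PG

open Equiv Finset Pool.Agent.N606.ST

open scoped Classical

set_option linter.unusedSectionVars false

variable {V : Type} [Fintype V] {n : ℕ} {B : Finset (Finset V)} {O : Finset V}

theorem mem_sd {α : Type} [Fintype α] {s : Finset α} {a : α} : a ∈ univ \ s ↔ a ∉ s := by simp

theorem mem_fl {α β : Type} [Fintype α] {D : α → Finset β} {A : β} {l : α} :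
    (l ∈ univ.filter fun l => A ∉ D l) ↔ A ∉ D l := by simp

theorem Chord.symm {P A C : V} (hc : Chord B O P A C) : Chord B O P C A := by
  obtain ⟨b, hb, hP, h1⟩ := hc
  exact ⟨b, hb, hP, by rw [h1, pair_comm]⟩

section

variable (h : Plane n B) (hO : Oval n B O)

include h

theorem chord_unique {P A C C' : V} (hP : P ∉ O) (hc : Chord B O P A C)
    (hc' : Chord B O P A C') : C = C' := by
  obtain ⟨b, hb, hPb, h1⟩ := hc
  obtain ⟨b', hb', hPb', h1'⟩ := hc'
  have hA : A ∈ b ∩ O := by rw [h1]; simp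
  have hA' : A ∈ b' ∩ O := by rw [h1']; simp
  rw [mem_inter] at hA hA'
  have hPA : P ≠ A := by
    rintro rfl
    exact hP hA.2
  have hbb : b = b' := h.eq hb hb' hPA hPb hA.1 hPb' hA'.1
  rw [hbb, h1'] at h1
  have h2 : C ∈ ({A, C'} : Finset V) := by rw [h1]; simp
  have h3 : C' ∈ ({A, C} : Finset V) := by rw [← h1]; simp
  rw [mem_insert, mem_singleton] at h2 h3
  rcases h2 with h2 | h2
  · rcases h3 with h3 | h3
    · rw [h2, h3]
    · exact h3.symm
  · exact h2

include hO

theorem chord_exists {P A : V} (hP : P ∉ O) (hA : A ∈ O) : ∃ C ∈ O, Chord B O P A C := by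
  have hPA : P ≠ A := by
    rintro rfl
    exact hP hA
  obtain ⟨b, hb, hPb, hAb⟩ := h.join hPA
  by_cases hC : ∃ C ∈ b ∩ O, C ≠ A
  · obtain ⟨C, hC, hCA⟩ := hC
    refine ⟨C, (mem_inter.1 hC).2, b, hb, hPb, ?_⟩
    symm
    apply eq_of_subset_of_card_le
    · intro x hx
      rw [mem_insert, mem_singleton] at hx
      rcases hx with rfl | rfl
      · exact mem_inter.2 ⟨hAb, hA⟩
      · exact hC
    · rw [card_pair hCA.symm]
      exact hO.2 b hb
  · push Not at hC
    refine ⟨A, hA, b, hb, hPb, ?_⟩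
    ext x
    rw [pair_eq_singleton, mem_singleton]
    constructor
    · exact hC x
    · rintro rfl
      exact mem_inter.2 ⟨hAb, hA⟩

/-- the secants through a point of the oval -/
theorem exists_secant {A : V} (hA : A ∈ O) : ∃ s : V → Finset V, ∀ C ∈ O.erase A,
    s C ∈ thru B A ∧ s C ∩ O = {A, C} := by
  have h1 : ∀ C ∈ O.erase A, ∃ b, b ∈ thru B A ∧ b ∩ O = {A, C} := by
    intro C hC
    rw [mem_erase] at hC
    obtain ⟨b, hb, hAb, hCb⟩ := h.join hC.1.symm
    refine ⟨b, mem_thru.2 ⟨hb, hAb⟩, ?_⟩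
    symm
    apply eq_of_subset_of_card_le
    · intro x hx
      rw [mem_insert, mem_singleton] at hx
      rcases hx with rfl | rfl
      · exact mem_inter.2 ⟨hAb, hA⟩
      · exact mem_inter.2 ⟨hCb, hC.2⟩
    · rw [card_pair hC.1.symm]
      exact hO.2 b hb
  choose! s hs using h1
  exact ⟨s, hs⟩

theorem card_secants {A : V} (hA : A ∈ O) {s : V → Finset V} (hs : ∀ C ∈ O.erase A,
    s C ∈ thru B A ∧ s C ∩ O = {A, C}) : ((O.erase A).image s).card = n := by
  rw [card_image_of_injOn, card_erase_of_mem hA, hO.1]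
  · rfl
  · intro C hC C' hC' hCC
    have hC := mem_coe.1 hC
    have hC' := mem_coe.1 hC'
    have h1 := (hs C hC).2
    rw [hCC, (hs C' hC').2] at h1
    have h2 : C ∈ ({A, C'} : Finset V) := by rw [h1]; simp
    rw [mem_insert, mem_singleton] at h2
    rcases h2 with h2 | h2
    · rw [mem_erase] at hC
      exact absurd h2 hC.1
    · exact h2

theorem tangent_exists (hn : 1 ≤ n) {A : V} (hA : A ∈ O) : ∃ b ∈ B, b ∩ O = {A} := by
  obtain ⟨s, hs⟩ := exists_secant h hO hA
  have h1 := card_secants h hO hA hs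
  have h2 : ((O.erase A).image s).card < (thru B A).card := by
    rw [h1, h.card_thru hn]
    omega
  obtain ⟨b, hb, hb'⟩ := exists_mem_notMem_of_card_lt_card h2
  rw [mem_thru] at hb
  refine ⟨b, hb.1, ?_⟩
  ext x
  rw [mem_singleton]
  constructor
  · intro hx
    by_contra hxA
    rw [mem_inter] at hx
    apply hb'
    rw [mem_image]
    have hx' : x ∈ O.erase A := mem_erase.2 ⟨hxA, hx.2⟩
    refine ⟨x, hx', ?_⟩
    have h3 := hs x hx'
    rw [mem_thru] at h3
    have h4 : x ∈ s x := by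
      have : x ∈ s x ∩ O := by rw [h3.2]; simp
      exact (mem_inter.1 this).1
    exact h.eq h3.1.1 hb.1 (fun e => hxA e.symm) h3.1.2 h4 hb.2 hx.1
  · rintro rfl
    exact mem_inter.2 ⟨hb.2, hA⟩

theorem tangent_unique (hn : 1 ≤ n) {A : V} (hA : A ∈ O) {b b' : Finset V} (hb : b ∈ B)
    (hb' : b' ∈ B) (h1 : b ∩ O = {A}) (h1' : b' ∩ O = {A}) : b = b' := by
  by_contra hbb
  obtain ⟨s, hs⟩ := exists_secant h hO hA
  have h2 := card_secants h hO hA hs
  have hAb : A ∈ b := by
    have : A ∈ b ∩ O := by rw [h1]; simp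
    exact (mem_inter.1 this).1
  have hAb' : A ∈ b' := by
    have : A ∈ b' ∩ O := by rw [h1']; simp
    exact (mem_inter.1 this).1
  have h3 : (O.erase A).image s ⊆ ((thru B A).erase b).erase b' := by
    intro c hc
    rw [mem_image] at hc
    obtain ⟨C, hC, rfl⟩ := hc
    obtain ⟨h4, h5⟩ := hs C hC
    rw [mem_erase] at hC
    have h6 : C ∈ s C ∩ O := by rw [h5]; simp
    rw [mem_erase, mem_erase]
    refine ⟨?_, ?_, h4⟩
    · intro e
      rw [e, h1', mem_singleton] at h6
      exact hC.1 h6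
    · intro e
      rw [e, h1, mem_singleton] at h6
      exact hC.1 h6
  have h4 := card_le_card h3
  rw [h2, card_erase_of_mem (mem_erase.2 ⟨fun e => hbb e.symm, mem_thru.2 ⟨hb', hAb'⟩⟩),
    card_erase_of_mem (mem_thru.2 ⟨hb, hAb⟩), h.card_thru hn] at h4
  omega

/-- the involutions of an oval -/
theorem exists_inv : ∃ i : {x : V // x ∉ O} → Perm {x : V // x ∈ O},
    (∀ P, i P * i P = 1) ∧ ∀ P A C, i P A = C ↔ Chord B O (P : V) A C := by
  have h1 : ∀ P : {x : V // x ∉ O}, ∀ A : {x : V // x ∈ O}, ∃ C : {x : V // x ∈ O},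
      Chord B O (P : V) A C := by
    intro P A
    obtain ⟨C, hC, h1⟩ := chord_exists h hO P.2 A.2
    exact ⟨⟨C, hC⟩, h1⟩
  choose f hf using h1
  have hff : ∀ P, Function.Involutive (f P) := by
    intro P A
    apply Subtype.ext
    exact chord_unique h P.2 (hf P (f P A)) (hf P A).symm
  refine ⟨fun P => (hff P).toPerm, ?_, ?_⟩
  · intro P
    ext A
    rw [Perm.mul_apply, Perm.one_apply]
    show ((f P (f P A) : {x : V // x ∈ O}) : V) = A
    rw [hff P A]
  · intro P A C
    show f P A = C ↔ _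
    constructor
    · rintro rfl
      exact hf P A
    · intro h2
      apply Subtype.ext
      exact chord_unique h P.2 (hf P A) h2

/-- the points off the oval on a line -/
noncomputable def EE (B : Finset (Finset V)) (O : Finset V) (l : {b // b ∈ B}) :
    Finset {x : V // x ∉ O} := univ.filter fun P => (P : V) ∈ l.1

/-- the points of the oval off a line -/
noncomputable def DD (B : Finset (Finset V)) (O : Finset V) (l : {b // b ∈ B}) :
    Finset {x : V // x ∈ O} := univ.filter fun P => (P : V) ∉ l.1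

omit [Fintype V] h hO in
theorem mem_EE [Fintype V] {l : {b // b ∈ B}} {P : {x : V // x ∉ O}} :
    P ∈ EE B O l ↔ (P : V) ∈ l.1 := by simp [EE]

omit [Fintype V] h hO in
theorem mem_DD [Fintype V] {l : {b // b ∈ B}} {P : {x : V // x ∈ O}} :
    P ∈ DD B O l ↔ (P : V) ∉ l.1 := by simp [DD]

theorem fr (hn : 1 ≤ n) {i : {x : V // x ∉ O} → Perm {x : V // x ∈ O}}
    (hi1 : ∀ P, i P * i P = 1) (hi2 : ∀ P A C, i P A = C ↔ Chord B O (P : V) A C) :
    Fr n (EE B O) (DD B O) i where
  cΩ := by rw [Fintype.card_coe, hO.1]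
  cP := by
    rw [Fintype.card_subtype_compl, Fintype.card_coe, hO.1, h.1]
    omega
  cL := by rw [Fintype.card_coe, h.card_eq hn]
  inv := by
    intro l
    refine ⟨hi1, ?_, ?_, ?_, ?_⟩
    · intro P hP A hA
      rw [mem_EE] at hP
      rw [mem_DD] at hA ⊢
      intro hC
      obtain ⟨b, hb, hPb, h1⟩ := (hi2 P A _).1 rfl
      have h2 : (i P A : V) ∈ b ∩ O := by rw [h1]; simp
      have h3 : (A : V) ∈ b ∩ O := by rw [h1]; simp
      rw [mem_inter] at h2 h3
      have hPC : (P : V) ≠ i P A := by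
        intro e
        exact P.2 (by rw [e]; exact h2.2)
      have hbl : b = l.1 := h.eq hb l.2 hPC hPb h2.1 hP hC
      rw [hbl] at h3
      exact hA h3.1
    · intro P hP Q hQ A hA
      rw [mem_EE] at hP hQ
      rw [mem_DD, not_not] at hA
      obtain ⟨b, hb, hPb, h1⟩ := (hi2 P A _).1 rfl
      have h3 : (A : V) ∈ b ∩ O := by rw [h1]; simp
      rw [mem_inter] at h3
      have hPA : (P : V) ≠ A := by
        intro e
        exact P.2 (by rw [e]; exact h3.2)
      have hbl : b = l.1 := h.eq hb l.2 hPA hPb h3.1 hP hA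
      symm
      rw [hi2]
      exact ⟨b, hb, by rw [hbl]; exact hQ, h1⟩
    · intro A hA C hC
      rw [mem_DD] at hA hC
      obtain ⟨b, hb, h1⟩ : ∃ b ∈ B, b ∩ O = {(A : V), (C : V)} := by
        by_cases hAC : (A : V) = C
        · obtain ⟨b, hb, h1⟩ := tangent_exists h hO hn A.2
          exact ⟨b, hb, by rw [h1, ← hAC, pair_eq_singleton]⟩
        · obtain ⟨s, hs⟩ := exists_secant h hO A.2
          have := hs C (mem_erase.2 ⟨fun e => hAC e.symm, C.2⟩)
          rw [mem_thru] at this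
          exact ⟨s C, this.1.1, this.2⟩
      obtain ⟨P, hPb, hPl⟩ := h.meet hn hb l.2
      have hPO : P ∉ O := by
        intro hPO
        have h2 : P ∈ b ∩ O := mem_inter.2 ⟨hPb, hPO⟩
        rw [h1, mem_insert, mem_singleton] at h2
        rcases h2 with h2 | h2
        · rw [h2] at hPl
          exact hA hPl
        · rw [h2] at hPl
          exact hC hPl
      refine ⟨⟨P, hPO⟩, mem_EE.2 hPl, ?_⟩
      rw [hi2]
      exact ⟨b, hb, hPb, h1⟩
    · intro A hA P hP Q hQ hPQ
      rw [mem_DD] at hA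
      rw [mem_EE] at hP hQ
      obtain ⟨b, hb, hPb, h1⟩ := (hi2 P A _).1 rfl
      obtain ⟨b', hb', hQb', h1'⟩ := (hi2 Q A _).1 hPQ.symm
      have h3 : (A : V) ∈ b ∩ O := by rw [h1]; simp
      have h3' : (A : V) ∈ b' ∩ O := by rw [h1']; simp
      have h4 : (i P A : V) ∈ b ∩ O := by rw [h1]; simp
      have h4' : (i P A : V) ∈ b' ∩ O := by rw [h1']; simp
      have hbb : b = b' := by
        by_cases hAC : (A : V) = i P A
        · rw [← hAC, pair_eq_singleton] at h1 h1'
          exact tangent_unique h hO hn A.2 hb hb' h1 h1'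
        · rw [mem_inter] at h3 h3' h4 h4'
          exact h.eq hb hb' hAC h3.1 h4.1 h3'.1 h4'.1
      by_contra hne
      have hne' : (P : V) ≠ Q := fun e => hne (Subtype.ext e)
      have hbl : b = l.1 := h.eq hb l.2 hne' hPb (by rw [hbb]; exact hQb') hP hQ
      rw [hbl, mem_inter] at h3
      exact hA h3.1
  cD := by
    intro l
    refine le_trans ?_ (hO.2 l.1 l.2)
    apply card_le_card_of_injOn fun A : {x : V // x ∈ O} => (A : V)
    · intro A hA
      have hA := mem_sd.1 (mem_coe.1 hA)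
      rw [mem_DD, not_not] at hA
      exact mem_coe.2 (mem_inter.2 ⟨hA, A.2⟩)
    · intro A _ A' _ e
      exact Subtype.ext e
  join := by
    intro P Q hPQ
    obtain ⟨b, hb, h1, h2⟩ := h.join fun e => hPQ (Subtype.ext e)
    exact ⟨⟨b, hb⟩, mem_EE.2 h1, mem_EE.2 h2⟩
  uniq := by
    intro l m P Q hPQ h1 h2 h3 h4
    rw [mem_EE] at h1 h2 h3 h4
    exact Subtype.ext (h.eq l.2 m.2 (fun e => hPQ (Subtype.ext e)) h1 h2 h3 h4)
  thru := by
    intro A
    rw [← h.card_thru hn (A : V)]
    refine card_bij (fun l _ => l.1) ?_ ?_ ?_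
    · intro l hl
      have hl := mem_fl.1 hl
      rw [mem_DD, not_not] at hl
      exact mem_thru.2 ⟨l.2, hl⟩
    · intro l _ m _ e
      exact Subtype.ext e
    · intro b hb
      rw [mem_thru] at hb
      refine ⟨⟨b, hb.1⟩, mem_fl.2 ?_, rfl⟩
      rw [mem_DD, not_not]
      exact hb.2
  sec := by
    intro A C hAC
    obtain ⟨b, hb, h1, h2⟩ := h.join fun e => hAC (Subtype.ext e)
    exact ⟨⟨b, hb⟩, by rw [mem_DD, not_not]; exact h1, by rw [mem_DD, not_not]; exact h2⟩

/-- The main theorem. -/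
theorem pascal (hn : 100 ≤ n) (hnp : ¬ IsPrimePow n) :
    n ^ 5 ≤ 100000 * {t : V × V × V | Fails B O t.1 t.2.1 t.2.2}.ncard := by
  obtain ⟨i, hi1, hi2⟩ := exists_inv h hO
  have hfr := fr h hO (by omega) hi1 hi2
  by_contra hcon
  push Not at hcon
  apply hnp
  apply main hfr hn
  refine lt_of_le_of_lt ?_ hcon
  apply Nat.mul_le_mul_left
  rw [← Set.ncard_coe_finset]
  apply Set.ncard_le_ncard_of_injOn (fun t => ((t.1 : V), (t.2.1 : V), (t.2.2 : V)))
  · rintro ⟨P, Q, R⟩ ht
    have ht := mem_coe.1 ht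
    simp only [badT, mem_filter, mem_univ, true_and] at ht
    obtain ⟨⟨l, h1, h2, h3⟩, h4⟩ := ht
    rw [mem_EE] at h1 h2 h3
    refine ⟨P.2, Q.2, R.2, ⟨l.1, l.2, h1, h2, h3⟩, ?_⟩
    have h5 : ∃ A, (i R * i Q * i P * (i R * i Q * i P)) A ≠ A := by
      by_contra hcon2
      push Not at hcon2
      apply h4
      have e1 : i R * i Q * i P * (i R * i Q * i P) = 1 := by
        ext A
        rw [hcon2 A]
        rfl
      have hinv : ∀ P, (i P)⁻¹ = i P := fun P => inv_eq_of_mul_eq_one_left (hi1 P)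
      have e2 := congrArg (fun g => g⁻¹) e1
      simp only [mul_inv_rev, hinv, inv_one] at e2
      rw [← e2]
      simp only [mul_assoc]
    obtain ⟨A, hA⟩ := h5
    refine ⟨fun j => match j with
      | 0 => (A : V)
      | 1 => (i P A : V)
      | 2 => (i Q (i P A) : V)
      | 3 => (i R (i Q (i P A)) : V)
      | 4 => (i P (i R (i Q (i P A))) : V)
      | 5 => (i Q (i P (i R (i Q (i P A)))) : V)
      | _ => (i R (i Q (i P (i R (i Q (i P A))))) : V), ?_, ?_, ?_, ?_, ?_, ?_, ?_⟩
    · exact (hi2 _ _ _).1 rfl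
    · exact (hi2 _ _ _).1 rfl
    · exact (hi2 _ _ _).1 rfl
    · exact (hi2 _ _ _).1 rfl
    · exact (hi2 _ _ _).1 rfl
    · exact (hi2 _ _ _).1 rfl
    · intro e
      apply hA
      apply Subtype.ext
      exact e
  · rintro ⟨P, Q, R⟩ _ ⟨P', Q', R'⟩ _ he
    simp only [Prod.mk.injEq] at he
    rw [Subtype.ext he.1, Subtype.ext he.2.1, Subtype.ext he.2.2]

end

end Pool.Agent.U671.PG
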