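import Mathlib

/-!
# Nearly commutative sharply transitive families of permutations
-/

set_option autoImplicit false

namespace Pool.Agent.U671.PG

open Equiv Finset

open scoped Classical

set_option linter.unusedSectionVars false

variable {Ω ι : Type} [Fintype Ω]

theorem ai (e : Perm Ω) (a : Ω) : e (e⁻¹ a) = a := e.apply_symm_apply a

theorem ia (e : Perm Ω) (a : Ω) : e⁻¹ (e a) = a := e.symm_apply_apply a

/-- The family `x` (indexed by `E`) fixes the points off `D` and is sharply transitive on `D`. -/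
structure Fam (D : Finset Ω) (E : Finset ι) (x : ι → Perm Ω) : Prop where
  off : ∀ i ∈ E, ∀ A, A ∉ D → x i A = A
  sh : ∀ A ∈ D, ∀ B ∈ D, ∃ i ∈ E, x i A = B
  inj : ∀ A ∈ D, ∀ i ∈ E, ∀ j ∈ E, x i A = x j A → i = j

/-- a permutation which fixes the points off `D` preserves `D` -/
theorem mem_of_off {D : Finset Ω} {g : Perm Ω} (hg : ∀ A, A ∉ D → g A = A) {A : Ω} (hA : A ∈ D) :
    g A ∈ D := by
  by_contra h
  have h1 := g.injective (hg _ h)
  rw [h1] at h
  exact h hA

/-- the members of the family that do not commute with `g` -/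
noncomputable def NC (E : Finset ι) (x : ι → Perm Ω) (g : Perm Ω) : Finset ι :=
  E.filter fun j => ¬ Commute g (x j)

theorem mem_NC {E : Finset ι} {x : ι → Perm Ω} {g : Perm Ω} {j : ι} :
    j ∈ NC E x g ↔ j ∈ E ∧ ¬ Commute g (x j) := by simp [NC]

theorem NC_mul (E : Finset ι) (x : ι → Perm Ω) (g h : Perm Ω) :
    (NC E x (g * h)).card ≤ (NC E x g).card + (NC E x h).card := by
  refine (card_le_card ?_).trans (card_union_le _ _)
  intro j hj
  rw [mem_NC] at hj
  rw [mem_union, mem_NC, mem_NC]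
  by_contra hcon
  push Not at hcon
  exact hj.2 (Commute.mul_left (hcon.1 hj.1) (hcon.2 hj.1))

theorem NC_inv (E : Finset ι) (x : ι → Perm Ω) (g : Perm Ω) : NC E x g⁻¹ = NC E x g := by
  ext j
  rw [mem_NC, mem_NC, Commute.inv_left_iff]

section

variable {D : Finset Ω} {E : Finset ι} {x : ι → Perm Ω} (h : Fam D E x)

include h

theorem Fam.card_eq (hD : D.Nonempty) : E.card = D.card := by
  obtain ⟨A, hA⟩ := hD
  refine card_bij (fun i _ => x i A) ?_ ?_ ?_
  · intro i hi
    exact mem_of_off (h.off i hi) hA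
  · intro i hi j hj hij
    exact h.inj A hA i hi j hj hij
  · intro B hB
    obtain ⟨i, hi, h1⟩ := h.sh A hA B hB
    exact ⟨i, hi, h1⟩

/-- A permutation with a fixed point in `D` that commutes with more than half of the family is
trivial. -/
theorem Fam.eq_one {g : Perm Ω} (hg : ∀ A, A ∉ D → g A = A) (hc : 2 * (NC E x g).card < D.card)
    {A : Ω} (hA : A ∈ D) (hgA : g A = A) : g = 1 := by
  have hED := h.card_eq ⟨A, hA⟩
  set J : Finset ι := E.filter fun j => Commute g (x j) with hJ
  have hJc : J.card + (NC E x g).card = E.card := card_filter_add_card_filter_not _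
  have hJE : ∀ j ∈ J, j ∈ E := fun j hj => (mem_filter.1 hj).1
  have hJm : ∀ j ∈ J, ∀ B, g (x j B) = x j (g B) := by
    intro j hj B
    have h1 := (mem_filter.1 hj).2
    have h2 := congrArg (fun k : Perm Ω => k B) h1.eq
    simpa using h2
  have h1 : ∀ B ∈ D, g B = B := by
    intro B hB
    -- the images of `A` and the preimages of `B` under the members of `J`
    set I₁ : Finset Ω := J.image fun j => x j A with hI₁
    set I₂ : Finset Ω := J.image fun j => (x j)⁻¹ B with hI₂
    have c1 : I₁.card = J.card := by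
      apply card_image_of_injOn
      intro i hi j hj hij
      exact h.inj A hA i (hJE i hi) j (hJE j hj) hij
    have c2 : I₂.card = J.card := by
      apply card_image_of_injOn
      intro i hi j hj hij
      have e1 : (x i)⁻¹ B ∈ D := by
        apply mem_of_off _ hB
        intro C hC
        rw [Perm.inv_eq_iff_eq]
        exact (h.off i (hJE i hi) C hC).symm
      refine h.inj _ e1 i (hJE i hi) j (hJE j hj) ?_
      have e2 : (x i)⁻¹ B = (x j)⁻¹ B := hij
      rw [ai]
      rw [e2, ai]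
    have s1 : I₁ ⊆ D := by
      intro C hC
      rw [hI₁, mem_image] at hC
      obtain ⟨j, hj, rfl⟩ := hC
      exact mem_of_off (h.off j (hJE j hj)) hA
    have s2 : I₂ ⊆ D := by
      intro C hC
      rw [hI₂, mem_image] at hC
      obtain ⟨j, hj, rfl⟩ := hC
      apply mem_of_off _ hB
      intro C hC
      rw [Perm.inv_eq_iff_eq]
      exact (h.off j (hJE j hj) C hC).symm
    obtain ⟨C, hC⟩ : (I₁ ∩ I₂).Nonempty := by
      by_contra hcon
      rw [not_nonempty_iff_eq_empty, ← disjoint_iff_inter_eq_empty] at hcon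
      have h2 := card_le_card (union_subset s1 s2)
      rw [card_union_of_disjoint hcon] at h2
      omega
    rw [mem_inter, hI₁, hI₂, mem_image, mem_image] at hC
    obtain ⟨⟨i, hi, h2⟩, j, hj, h3⟩ := hC
    have h4 : g C = C := by rw [← h2, hJm i hi, hgA]
    have h5 : x j C = B := by rw [← h3, ai]
    rw [← h5, hJm j hj, h4]
  ext B
  by_cases hB : B ∈ D
  · rw [h1 B hB]; rfl
  · rw [hg B hB]; rfl

/-- the members that commute with most of the family -/
noncomputable def Fam.good (_h : Fam D E x) : Finset ι :=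
  E.filter fun i => 7 * (NC E x (x i)).card ≤ D.card

theorem Fam.mem_good {i : ι} : i ∈ h.good ↔ i ∈ E ∧ 7 * (NC E x (x i)).card ≤ D.card := by
  simp [Fam.good]

theorem Fam.good_mul (hD : D.Nonempty) {y z w : ι} (hy : y ∈ h.good) (hz : z ∈ h.good)
    (hw : w ∈ h.good)
    {A : Ω} (hA : A ∈ D) (he : x y (x z A) = x w A) : x y * x z = x w := by
  rw [h.mem_good] at hy hz hw
  have h0 : 0 < D.card := card_pos.2 hD
  have h1 : (x w)⁻¹ * (x y * x z) = 1 := by
    apply h.eq_one (A := A) _ _ hA _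
    · intro B hB
      rw [Perm.mul_apply, Perm.mul_apply, h.off z hz.1 B hB, h.off y hy.1 B hB,
        Perm.inv_eq_iff_eq, h.off w hw.1 B hB]
    · have h2 := NC_mul E x (x w)⁻¹ (x y * x z)
      have h3 := NC_mul E x (x y) (x z)
      rw [NC_inv] at h2
      omega
    · rw [Perm.mul_apply, Perm.mul_apply, he, ia]
  rw [inv_mul_eq_one] at h1
  exact h1.symm

theorem Fam.good_comm (hD : D.Nonempty) (hc : 7 * (2 * (E \ h.good).card) < 5 * D.card) {y z : ι}
    (hy : y ∈ h.good) (hz : z ∈ h.good) : Commute (x y) (x z) := by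
  obtain ⟨A, hA⟩ := hD
  have hED := h.card_eq ⟨A, hA⟩
  have hy' := h.mem_good.1 hy
  have hz' := h.mem_good.1 hz
  have hv : ∀ u ∈ E, ∃ v ∈ E, x v A = x z (x u A) := fun u hu =>
    h.sh A hA _ (mem_of_off (h.off z hz'.1) (mem_of_off (h.off u hu) hA))
  choose! v hv1 hv2 using hv
  have hvinj : ∀ u ∈ E, ∀ u' ∈ E, v u = v u' → u = u' := by
    intro u hu u' hu' huu
    have h1 := hv2 u hu
    rw [huu, hv2 u' hu'] at h1
    exact h.inj A hA u hu u' hu' ((x z).injective h1).symm
  -- the exceptional `u`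
  set U₁ : Finset ι := E \ h.good
  set U₂ : Finset ι := NC E x (x y)
  set V₁ : Finset ι := E.filter fun u => v u ∈ U₁
  set V₂ : Finset ι := E.filter fun u => v u ∈ U₂
  have c1 : V₁.card ≤ U₁.card := by
    apply card_le_card_of_injOn v
    · intro u hu
      exact (mem_filter.1 hu).2
    · intro u hu u' hu' huu
      exact hvinj u (mem_filter.1 hu).1 u' (mem_filter.1 hu').1 huu
  have c2 : V₂.card ≤ U₂.card := by
    apply card_le_card_of_injOn v
    · intro u hu
      exact (mem_filter.1 hu).2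
    · intro u hu u' hu' huu
      exact hvinj u (mem_filter.1 hu).1 u' (mem_filter.1 hu').1 huu
  obtain ⟨u, hu⟩ : (E \ ((U₁ ∪ U₂) ∪ (V₁ ∪ V₂))).Nonempty := by
    rw [← card_pos]
    have h1 := le_card_sdiff ((U₁ ∪ U₂) ∪ (V₁ ∪ V₂)) E
    have h2 := card_union_le (U₁ ∪ U₂) (V₁ ∪ V₂)
    have h3 := card_union_le U₁ U₂
    have h4 := card_union_le V₁ V₂
    have h5 : 7 * U₂.card ≤ D.card := hy'.2
    omega
  rw [mem_sdiff, mem_union, mem_union, mem_union] at hu
  push Not at hu
  obtain ⟨huE, ⟨hu1, hu2⟩, hu3, hu4⟩ := hu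
  have hug : u ∈ h.good := by
    by_contra hcon
    exact hu1 (mem_sdiff.2 ⟨huE, hcon⟩)
  have huy : Commute (x y) (x u) := by
    by_contra hcon
    exact hu2 (mem_NC.2 ⟨huE, hcon⟩)
  have hvg : v u ∈ h.good := by
    by_contra hcon
    exact hu3 (mem_filter.2 ⟨huE, mem_sdiff.2 ⟨hv1 u huE, hcon⟩⟩)
  have hvy : Commute (x y) (x (v u)) := by
    by_contra hcon
    exact hu4 (mem_filter.2 ⟨huE, mem_NC.2 ⟨hv1 u huE, hcon⟩⟩)
  have h1 : x z * x u = x (v u) := h.good_mul ⟨A, hA⟩ hz hug hvg hA (hv2 u huE).symm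
  rw [← h1] at hvy
  have h2 := hvy.mul_right huy.inv_right
  rwa [mul_inv_cancel_right] at h2

end

end Pool.Agent.U671.PG
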