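import Pool.Agent.N606.ST.PDefs

/-!
# Ovals and Pascal's theorem
-/

set_option autoImplicit false

namespace Pool.Agent.U671.PG

open Finset

/-- An oval of a plane of order `n`: a set of `n + 1` points which has at most two points on every
line. -/
def Oval {V : Type} [DecidableEq V] (n : ℕ) (B : Finset (Finset V)) (O : Finset V) : Prop :=
  O.card = n + 1 ∧ ∀ b ∈ B, (b ∩ O).card ≤ 2

/-- Some line through `P` meets `O` in `A` and `C` and in no other point (the line is a tangent of
`O` if `A = C`). -/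
def Chord {V : Type} [DecidableEq V] (B : Finset (Finset V)) (O : Finset V) (P A C : V) : Prop :=
  ∃ b ∈ B, P ∈ b ∧ b ∩ O = {A, C}

/-- The points `P`, `Q`, `R` are collinear and not in `O`, and a hexagon inscribed in `O` whose
first five sides pass through `P`, `Q`, `R`, `P`, `Q` has a sixth side which does not pass
through `R`. (If `A 0, ..., A 6` is a sequence of points of `O` whose sides pass through
`P`, `Q`, `R`, `P`, `Q`, `R`, then `A 6 ≠ A 0`.) -/
def Fails {V : Type} [DecidableEq V] (B : Finset (Finset V)) (O : Finset V) (P Q R : V) : Prop :=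
  P ∉ O ∧ Q ∉ O ∧ R ∉ O ∧ (∃ b ∈ B, P ∈ b ∧ Q ∈ b ∧ R ∈ b) ∧
    ∃ A : ℕ → V, Chord B O P (A 0) (A 1) ∧ Chord B O Q (A 1) (A 2) ∧ Chord B O R (A 2) (A 3) ∧
      Chord B O P (A 3) (A 4) ∧ Chord B O Q (A 4) (A 5) ∧ Chord B O R (A 5) (A 6) ∧ A 6 ≠ A 0

end Pool.Agent.U671.PG
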