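import Pool.Agent.N606.ST.Ninth

/-!
# Nearly closed sets of permutations, and sharply 3-transitive groups
-/

set_option autoImplicit false

namespace Pool.Agent.U671.PG

open Equiv Finset Pool.Agent.N606.ST

open scoped Classical

set_option linter.unusedSectionVars false

variable {Ω : Type} [Fintype Ω]

/-- If fewer than a ninth of the products of members of `S` are not in `S`, then the permutations
`g` for which `g * S` is near `S` form a group which is not much larger than `S`. -/
theorem exists_group (S : Finset (Perm Ω)) (hb : 9 * (badPairs S).card < S.card ^ 2) :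
    ∃ G : Subgroup (Perm Ω), (∀ g, g ∉ G → 2 * S.card ≤ 3 * wt S g) ∧
      2 * (univ.filter fun g => g ∈ G).card < 3 * S.card := by
  set N := S.card with hN
  have hNpos : 0 < N := by
    rcases Nat.eq_zero_or_pos N with h | h
    · rw [h] at hb
      simp at hb
    · exact h
  have hgap : ∀ g, 3 * wt S g < N ∨ 2 * N < 3 * wt S g := by
    intro g
    by_contra hcon
    push Not at hcon
    have h1 := wt_ineq S g
    have h2 := wt_le S g
    obtain ⟨u, hu⟩ : ∃ u, N = wt S g + u := ⟨N - wt S g, by omega⟩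
    have h3 : S.card - wt S g = u := by omega
    rw [h3] at h1
    have h4 : 2 * N ^ 2 ≤ 9 * (wt S g * u) := by
      have h5 := hcon.1
      have h6 := hcon.2
      rw [hu] at h5 h6
      rw [hu]
      zify at h5 h6 ⊢
      nlinarith
    omega
  let G : Subgroup (Perm Ω) :=
    { carrier := {g | 3 * wt S g < N}
      mul_mem' := by
        intro g h hg hh
        simp only [Set.mem_ofPred_eq] at hg hh ⊢
        rcases hgap (g * h) with h1 | h1
        · exact h1
        · have := wt_mul S g h
          omega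
      one_mem' := by
        simp only [Set.mem_ofPred_eq]
        rw [wt_one]
        omega
      inv_mem' := by
        intro g hg
        simp only [Set.mem_ofPred_eq] at hg ⊢
        rwa [wt_inv] }
  have hmemG : ∀ g, g ∈ G ↔ 3 * wt S g < N := fun g => Iff.rfl
  refine ⟨G, ?_, ?_⟩
  · intro g hg
    rw [hmemG] at hg
    rcases hgap g with h1 | h1
    · exact absurd h1 hg
    · exact h1.le
  · set Gf : Finset (Perm Ω) := univ.filter fun g => g ∈ G with hGf
    have h4 : ∑ g ∈ Gf, (S ∩ lmul g S).card ≤ N * N := by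
      have h5 : ∑ g ∈ Gf, (S ∩ lmul g S).card ≤
          ∑ g : Perm Ω, (S ∩ lmul g S).card := sum_le_sum_of_subset (filter_subset _ _)
      have h6 : ∑ g : Perm Ω, (S ∩ lmul g S).card = N * N := by
        have h7 : ∀ g : Perm Ω, (S ∩ lmul g S).card = ∑ x ∈ S, if g⁻¹ * x ∈ S then 1 else 0 := by
          intro g
          rw [← card_filter]
          congr 1
          ext x
          rw [mem_inter, mem_filter, mem_lmul]
        simp only [h7]
        rw [sum_comm]
        have h8 : ∀ x ∈ S, ∑ g : Perm Ω, (if g⁻¹ * x ∈ S then 1 else 0) = N := by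
          intro x _
          rw [← card_filter, hN]
          refine card_bij (fun g _ => g⁻¹ * x) ?_ ?_ ?_
          · intro g hg
            rw [mem_filter] at hg
            exact hg.2
          · intro g _ k _ hgk
            exact inv_injective (mul_right_cancel hgk)
          · intro y hy
            refine ⟨x * y⁻¹, ?_, by simp⟩
            rw [mem_filter]
            refine ⟨mem_univ _, ?_⟩
            simpa using hy
        rw [sum_congr rfl h8, sum_const, smul_eq_mul]
      omega
    have h5 : ∀ g ∈ Gf, 2 * N + 1 ≤ 3 * (S ∩ lmul g S).card := by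
      intro g hg
      rw [hGf, mem_filter, hmemG] at hg
      have h6 := card_inter_lmul S g
      omega
    have h6 := card_nsmul_le_sum _ _ _ h5
    rw [smul_eq_mul, ← mul_sum] at h6
    have h7 : Gf.card * (2 * N + 1) ≤ 3 * (N * N) := h6.trans (by omega)
    by_contra hcon
    push Not at hcon
    nlinarith

section

variable {H : Subgroup (Perm Ω)} {n : ℕ} {A B₁ B₂ : Ω}

/-- A group of permutations of `n + 1` points which is not too large and contains enough
permutations with two fixed points. -/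
theorem isPrimePow_of_secants (hΩ : Fintype.card Ω = n + 1) (hn : 3 ≤ n)
    (hH : (univ.filter fun g => g ∈ H).card < 2 * ((n + 1) * n * (n - 1)))
    (hA1 : A ≠ B₁) (h12 : B₁ ≠ B₂)
    (h1 : ∀ C D, C ≠ A → C ≠ B₁ → D ≠ A → D ≠ B₁ → ∃ g ∈ H, g A = A ∧ g B₁ = B₁ ∧ g C = D)
    (h2 : ∀ C D, C ≠ A → C ≠ B₂ → D ≠ A → D ≠ B₂ → ∃ g ∈ H, g A = A ∧ g B₂ = B₂ ∧ g C = D)
    (h3 : ∃ g ∈ H, g A ≠ A) : IsPrimePow n := by
  -- a fourth point
  obtain ⟨F, hFA, hF1, hF2⟩ : ∃ F, F ≠ A ∧ F ≠ B₁ ∧ F ≠ B₂ := by
    by_contra hcon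
    push Not at hcon
    have h4 : (univ : Finset Ω) ⊆ {A, B₁, B₂} := by
      intro F _
      rw [mem_insert, mem_insert, mem_singleton]
      by_contra h5
      push Not at h5
      exact h5.2.2 (hcon F h5.1 h5.2.1)
    have h5 := card_le_card h4
    rw [card_univ, hΩ] at h5
    have h6 := card_le_three (a := A) (b := B₁) (c := B₂)
    omega
  -- the stabilizer of `A` is transitive on the other points
  have st : ∀ C D, C ≠ A → D ≠ A → ∃ g ∈ H, g A = A ∧ g C = D := by
    intro C D hC hD
    have key : ∀ C, C ≠ A → ∃ g ∈ H, g A = A ∧ g C = F := by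
      intro C hC
      by_cases hC1 : C = B₁
      · obtain ⟨g, hg, e1, _, e2⟩ := h2 C F hC (by rw [hC1]; exact h12) hFA hF2
        exact ⟨g, hg, e1, e2⟩
      · obtain ⟨g, hg, e1, _, e2⟩ := h1 C F hC hC1 hFA hF1
        exact ⟨g, hg, e1, e2⟩
    obtain ⟨g, hg, e1, e2⟩ := key C hC
    obtain ⟨k, hk, e3, e4⟩ := key D hD
    refine ⟨k⁻¹ * g, H.mul_mem (H.inv_mem hk) hg, ?_, ?_⟩
    · rw [Perm.mul_apply, e1, Perm.inv_eq_iff_eq, e3]
    · rw [Perm.mul_apply, e2, Perm.inv_eq_iff_eq, e4]
  have tr : ∀ C, ∃ g ∈ H, g A = C := by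
    intro C
    by_cases hC : C = A
    · exact ⟨1, H.one_mem, by rw [hC]; rfl⟩
    · obtain ⟨g, hg, e1⟩ := h3
      obtain ⟨k, hk, _, e2⟩ := st (g A) C e1 hC
      exact ⟨k * g, H.mul_mem hk hg, e2⟩
  have ttr : ∀ a b c : Ω, a ≠ b → a ≠ c → b ≠ c → ∃ g ∈ H, g A = a ∧ g B₁ = b ∧ g F = c := by
    intro a b c hab hac hbc
    obtain ⟨u, hu, e1⟩ := tr a
    have hb' : u⁻¹ b ≠ A := by
      intro h
      rw [Perm.inv_eq_iff_eq, e1] at h
      exact hab h.symm
    obtain ⟨v, hv, e2, e3⟩ := st B₁ (u⁻¹ b) hA1.symm hb'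
    have hc1 : v⁻¹ (u⁻¹ c) ≠ A := by
      intro h
      rw [Perm.inv_eq_iff_eq, e2, Perm.inv_eq_iff_eq, e1] at h
      exact hac h.symm
    have hc2 : v⁻¹ (u⁻¹ c) ≠ B₁ := by
      intro h
      rw [Perm.inv_eq_iff_eq, e3, (u⁻¹).injective.eq_iff] at h
      exact hbc h.symm
    obtain ⟨w, hw, e4, e5, e6⟩ := h1 F (v⁻¹ (u⁻¹ c)) hFA hF1 hc1 hc2
    refine ⟨u * v * w, H.mul_mem (H.mul_mem hu hv) hw, ?_, ?_, ?_⟩
    · rw [Perm.mul_apply, Perm.mul_apply, e4, e2, e1]
    · rw [Perm.mul_apply, Perm.mul_apply, e5, e3]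
      exact u.apply_symm_apply b
    · rw [Perm.mul_apply, Perm.mul_apply, e6]
      have : v (v⁻¹ (u⁻¹ c)) = u⁻¹ c := v.apply_symm_apply _
      rw [this]
      exact u.apply_symm_apply c
  -- sharpness
  have sharp : ∀ k ∈ H, ∀ a b c : Ω, a ≠ b → a ≠ c → b ≠ c → k a = a → k b = b → k c = c →
      k = 1 := by
    intro k hk a b c hab hac hbc ha hb hc
    by_contra hk1
    obtain ⟨u, hu, e1, e2, e3⟩ := ttr a b c hab hac hbc
    set k' : Perm Ω := u⁻¹ * k * u with hk'
    have hk'H : k' ∈ H := H.mul_mem (H.mul_mem (H.inv_mem hu) hk) hu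
    have hk'1 : k' ≠ 1 := by
      intro h
      apply hk1
      have h4 : k = u * k' * u⁻¹ := by rw [hk']; group
      rw [h4, h, mul_one, mul_inv_cancel]
    have f1 : k' A = A := by
      rw [hk', Perm.mul_apply, Perm.mul_apply, e1, ha, Perm.inv_eq_iff_eq, e1]
    have f2 : k' B₁ = B₁ := by
      rw [hk', Perm.mul_apply, Perm.mul_apply, e2, hb, Perm.inv_eq_iff_eq, e2]
    have f3 : k' F = F := by
      rw [hk', Perm.mul_apply, Perm.mul_apply, e3, hc, Perm.inv_eq_iff_eq, e3]
    have hs : ∀ e : Fin 3 ↪ Ω, ∃ g ∈ H, g A = e 0 ∧ g B₁ = e 1 ∧ g F = e 2 := by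
      intro e
      apply ttr
      · intro h; have := e.injective h; simp at this
      · intro h; have := e.injective h; simp at this
      · intro h; have := e.injective h; simp at this
    choose s hs1 hs2 hs3 hs4 using hs
    have hext : ∀ e e' : Fin 3 ↪ Ω, s e A = s e' A → s e B₁ = s e' B₁ → s e F = s e' F →
        e = e' := by
      intro e e' g1 g2 g3
      rw [hs2, hs2] at g1
      rw [hs3, hs3] at g2
      rw [hs4, hs4] at g3
      ext j
      fin_cases j
      · exact g1
      · exact g2
      · exact g3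
    have hsinj : Function.Injective s := by
      intro e e' hee
      apply hext <;> rw [hee]
    set S : Finset (Perm Ω) := univ.image s with hS
    have hScard : S.card = (n + 1) * n * (n - 1) := by
      rw [hS, card_image_of_injective _ hsinj, card_univ, Fintype.card_embedding_eq, hΩ,
        Fintype.card_fin]
      simp only [Nat.descFactorial]
      have g1 : n + 1 - 2 = n - 1 := by omega
      have g2 : n + 1 - 1 = n := by omega
      have g3 : n + 1 - 0 = n + 1 := by omega
      rw [g1, g2, g3, mul_one]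
      ring
    have hdis : Disjoint S (S.image fun g => g * k') := by
      rw [Finset.disjoint_left]
      intro g hg hg2
      rw [mem_image] at hg2
      obtain ⟨g', hg', h6⟩ := hg2
      rw [hS, mem_image] at hg hg'
      obtain ⟨e, _, rfl⟩ := hg
      obtain ⟨e', _, rfl⟩ := hg'
      have h7 : e = e' := by
        apply hext
        · rw [← h6, Perm.mul_apply, f1]
        · rw [← h6, Perm.mul_apply, f2]
        · rw [← h6, Perm.mul_apply, f3]
      rw [h7] at h6
      exact hk'1 (mul_eq_left.1 h6)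
    have hsub : S ∪ (S.image fun g => g * k') ⊆ univ.filter fun g => g ∈ H := by
      intro g hg
      rw [mem_union] at hg
      rw [mem_filter]
      refine ⟨mem_univ _, ?_⟩
      rcases hg with hg | hg
      · rw [hS, mem_image] at hg
        obtain ⟨e, _, rfl⟩ := hg
        exact hs1 e
      · rw [mem_image] at hg
        obtain ⟨g', hg', rfl⟩ := hg
        rw [hS, mem_image] at hg'
        obtain ⟨e, _, rfl⟩ := hg'
        exact H.mul_mem (hs1 e) hk'H
    have h7 := card_le_card hsub
    rw [card_union_of_disjoint hdis, card_image_of_injective _ (mul_left_injective k'),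
      hScard] at h7
    omega
  -- the stabilizer of `A`
  let G : Subgroup (Perm {x : Ω // x ≠ A}) := H.comap (Perm.ofSubtype)
  have hG : Sharp (G : Set (Perm {x : Ω // x ≠ A})) := by
    intro a b c d hab hcd
    have hab' : (a : Ω) ≠ b := fun h => hab (Subtype.ext h)
    have hcd' : (c : Ω) ≠ d := fun h => hcd (Subtype.ext h)
    obtain ⟨u, hu, e1, e2, e3⟩ := ttr A a b a.2.symm b.2.symm hab'
    obtain ⟨v, hv, e4, e5, e6⟩ := ttr A c d c.2.symm d.2.symm hcd'
    set w : Perm Ω := v * u⁻¹ with hw
    have hwH : w ∈ H := H.mul_mem hv (H.inv_mem hu)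
    have hu1 : u⁻¹ A = A := by rw [Perm.inv_eq_iff_eq, e1]
    have hu2 : u⁻¹ a = B₁ := by rw [Perm.inv_eq_iff_eq, e2]
    have hu3 : u⁻¹ b = F := by rw [Perm.inv_eq_iff_eq, e3]
    have w1 : w A = A := by rw [hw, Perm.mul_apply, hu1, e4]
    have w2 : w a = c := by rw [hw, Perm.mul_apply, hu2, e5]
    have w3 : w b = d := by rw [hw, Perm.mul_apply, hu3, e6]
    have hwp : ∀ x, w x ≠ A ↔ x ≠ A := by
      intro x
      rw [not_iff_not]
      constructor
      · intro h
        apply w.injective
        rw [h, w1]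
      · intro h
        rw [h, w1]
    refine ⟨w.subtypePerm hwp, ⟨?_, ?_, ?_⟩, ?_⟩
    · show Perm.ofSubtype (w.subtypePerm hwp) ∈ H
      rw [Perm.ofSubtype_subtypePerm]
      · exact hwH
      · intro x hx hxA
        rw [hxA, w1] at hx
        exact hx rfl
    · apply Subtype.ext
      rw [Perm.subtypePerm_apply]
      exact w2
    · apply Subtype.ext
      rw [Perm.subtypePerm_apply]
      exact w3
    · rintro τ ⟨hτ, t1, t2⟩
      have hτH : Perm.ofSubtype τ ∈ H := hτ
      have t0 : Perm.ofSubtype τ A = A := by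
        apply Perm.ofSubtype_apply_of_not_mem
        simp
      have t1' : Perm.ofSubtype τ (a : Ω) = c := by
        rw [Perm.ofSubtype_apply_coe, t1]
      have t2' : Perm.ofSubtype τ (b : Ω) = d := by
        rw [Perm.ofSubtype_apply_coe, t2]
      have h6 : w⁻¹ * Perm.ofSubtype τ = 1 := by
        refine sharp _ (H.mul_mem (H.inv_mem hwH) hτH) A a b a.2.symm b.2.symm hab' ?_ ?_ ?_
        · rw [Perm.mul_apply, t0, Perm.inv_eq_iff_eq, w1]
        · rw [Perm.mul_apply, t1', Perm.inv_eq_iff_eq, w2]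
        · rw [Perm.mul_apply, t2', Perm.inv_eq_iff_eq, w3]
      rw [inv_mul_eq_one] at h6
      ext x
      rw [Perm.subtypePerm_apply]
      show ((τ x : {x : Ω // x ≠ A}) : Ω) = w x
      rw [h6, Perm.ofSubtype_apply_coe]
  have hcard : Fintype.card {x : Ω // x ≠ A} = n := by
    rw [Fintype.card_subtype_compl, hΩ]
    simp
  have := isPrimePow_of_group hG (by rw [hcard]; omega)
  rwa [hcard] at this

end

end Pool.Agent.U671.PG
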