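import Pool.Agent.U671.PG.Line
import Pool.Agent.U671.PG.Three

/-!
# The involutions of an oval: the groups of two lines have trivial intersection
-/

set_option autoImplicit false

namespace Pool.Agent.U671.PG

open Equiv Finset

open scoped Classical

set_option linter.unusedSectionVars false

variable {Ω Pt Ln : Type} [Fintype Ω] [Fintype Pt] [Fintype Ln]

/-- The points `Ω` of an oval, the other points `Pt` and the lines `Ln` of a projective plane of
order `n`, the points `E l ⊆ Pt` of the line `l`, the points `D l ⊆ Ω` that are not on the line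
`l`, and the involution `i P` of `Ω` belonging to the point `P`. -/
structure Fr (n : ℕ) (E : Ln → Finset Pt) (D : Ln → Finset Ω) (i : Pt → Perm Ω) : Prop where
  cΩ : Fintype.card Ω = n + 1
  cP : Fintype.card Pt = n ^ 2
  cL : Fintype.card Ln = n ^ 2 + n + 1
  inv : ∀ l, Inv i (E l) (D l)
  cD : ∀ l, (univ \ D l).card ≤ 2
  join : ∀ P Q, P ≠ Q → ∃ l, P ∈ E l ∧ Q ∈ E l
  uniq : ∀ l m P Q, P ≠ Q → P ∈ E l → Q ∈ E l → P ∈ E m → Q ∈ E m → l = m
  thru : ∀ A, (univ.filter fun l => A ∉ D l).card = n + 1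
  sec : ∀ A B, A ≠ B → ∃ l, A ∉ D l ∧ B ∉ D l

variable {n : ℕ} {E : Ln → Finset Pt} {D : Ln → Finset Ω} {i : Pt → Perm Ω} (h : Fr n E D i)

include h

theorem Fr.cD' (l : Ln) : n ≤ (D l).card + 1 ∧ (D l).card ≤ n + 1 := by
  have h1 := h.cD l
  have h2 : (univ \ D l).card + (D l).card = n + 1 := by
    rw [card_sdiff_add_card_eq_card (subset_univ _), card_univ, h.cΩ]
  omega

theorem Fr.nonempty (hn : 2 ≤ n) (l : Ln) : (D l).Nonempty := by
  have := h.cD' l
  rw [← card_pos]
  omega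

theorem Fr.cE (hn : 2 ≤ n) (l : Ln) : (E l).card = (D l).card := by
  obtain ⟨A, hA⟩ := h.nonempty hn l
  refine card_bij (fun P _ => i P A) ?_ ?_ ?_
  · intro P hP
    exact (h.inv l).pres P hP A hA
  · intro P hP Q hQ hPQ
    exact (h.inv l).inj A hA P hP Q hQ hPQ
  · intro B hB
    obtain ⟨P, hP, h1⟩ := (h.inv l).sh A hA B hB
    exact ⟨P, hP, h1⟩

theorem Fr.two {l : Ln} {A B C : Ω} (hAB : A ≠ B) (hA : A ∉ D l) (hB : B ∉ D l) (hC : C ∉ D l) :
    C = A ∨ C = B := by
  by_contra hcon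
  push Not at hcon
  have h1 : ({A, B, C} : Finset Ω) ⊆ univ \ D l := by
    intro x hx
    rw [mem_insert, mem_insert, mem_singleton] at hx
    rw [mem_sdiff]
    refine ⟨mem_univ _, ?_⟩
    rcases hx with rfl | rfl | rfl
    · exact hA
    · exact hB
    · exact hC
  have h2 := card_le_card h1
  rw [card_eq_three.2 ⟨A, B, C, hAB, hcon.1.symm, hcon.2.symm, rfl⟩] at h2
  have := h.cD l
  omega

theorem Fr.ii (l : Ln) (P : Pt) (A : Ω) : i P (i P A) = A := by
  have := congrArg (fun k : Perm Ω => k A) ((h.inv l).inv P)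
  simpa using this

/-- The groups of two lines have trivial intersection. -/
theorem Fr.inter (hn : 20 ≤ n) {l m : Ln} (hlm : l ≠ m) {𝒢 𝒢' : Finset Pt}
    {G G' : Subgroup (Perm Ω)} (h1 : LD i (E l) (D l) 𝒢 G) (h2 : LD i (E m) (D m) 𝒢' G')
    (h3 : 1150 * (E l \ 𝒢).card ≤ 7 * (D l).card)
    (h4 : 1150 * (E m \ 𝒢').card ≤ 7 * (D m).card) {g : Perm Ω} (hg : g ∈ G) (hg' : g ∈ G') :
    g = 1 := by
  by_contra hg1
  have hlc := h.cD' l
  have hmc := h.cD' m
  -- the points of the oval on neither of the two lines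
  have hW : n ≤ (D l ∩ D m).card + 3 := by
    have e1 : (univ \ D l).card + (D l).card = n + 1 := by
      rw [card_sdiff_add_card_eq_card (subset_univ _), card_univ, h.cΩ]
    have e2 : (univ : Finset Ω) ⊆ (univ \ D l) ∪ (univ \ D m) ∪ (D l ∩ D m) := by
      intro x _
      simp only [mem_union, mem_sdiff, mem_univ, true_and, mem_inter]
      tauto
    have e3 := card_le_card e2
    have e4 := card_union_le ((univ \ D l) ∪ (univ \ D m)) (D l ∩ D m)
    have e5 := card_union_le (univ \ D l) (univ \ D m)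
    have e6 := h.cD l
    have e7 := h.cD m
    rw [card_univ, h.cΩ] at e3
    omega
  obtain ⟨B, hB⟩ : (D l ∩ D m).Nonempty := by
    rw [← card_pos]
    omega
  rw [mem_inter] at hB
  have hP : ∀ C ∈ D l, ∃ P ∈ E l, i P B = C := fun C hC => (h.inv l).sh B hB.1 C hC
  have hR : ∀ C ∈ D m, ∃ P ∈ E m, i P B = C := fun C hC => (h.inv m).sh B hB.2 C hC
  obtain ⟨P0, -, -⟩ := hP B hB.1
  have : Nonempty Pt := ⟨P0⟩
  choose! P hP1 hP2 using hP
  choose! R hR1 hR2 using hR
  have key : ∀ C ∈ D l ∩ D m, C ≠ B → P C ∈ 𝒢 → R C ∈ 𝒢' → P C ≠ R C → g B = C := by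
    intro C hC hCB hPC hRC hPR
    rw [mem_inter] at hC
    obtain ⟨k, hk1, hk2⟩ := h.join _ _ hPR
    have c1 : i (P C) * i (R C) * g = g * (i (P C) * i (R C)) := by
      have e1 := h2.conj (R C) hRC g hg'
      have e2 := h1.conj (P C) hPC g⁻¹ (G.inv_mem hg)
      rw [inv_inv] at e2
      calc i (P C) * i (R C) * g = i (P C) * (i (R C) * g * i (R C)) * i (R C) := by
            simp only [mul_assoc, (h.inv l).inv, mul_one]
        _ = (i (P C) * g⁻¹ * i (P C)) * i (P C) * i (R C) := by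
            rw [e1]
            simp only [mul_assoc]
            rw [← mul_assoc (i (P C)) (i (P C)) (i (R C)), (h.inv l).inv, one_mul]
        _ = _ := by rw [e2, mul_assoc]
    have c2 : i (P C) (g B) = i (R C) (g B) := by
      have e1 := congrArg (fun k : Perm Ω => k B) c1
      simp only [Perm.mul_apply] at e1
      rw [hR2 C hC.2] at e1
      have e2 : i (P C) C = B := by
        have e3 := congrArg (i (P C)) (hP2 C hC.1)
        rw [h.ii l] at e3
        exact e3.symm
      rw [e2] at e1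
      have e3 := congrArg (i (P C)) e1
      rw [h.ii l] at e3
      exact e3.symm
    have f1 : g B ∉ D k := fun hcon => hPR ((h.inv k).inj _ hcon _ hk1 _ hk2 c2)
    have f2 : B ∉ D k := by
      intro hcon
      apply hPR
      apply (h.inv k).inj _ hcon _ hk1 _ hk2
      rw [hP2 C hC.1, hR2 C hC.2]
    have f3 : C ∉ D k := by
      intro hcon
      apply f2
      have e2 : i (P C) C = B := by
        have e3 := congrArg (i (P C)) (hP2 C hC.1)
        rw [h.ii l] at e3
        exact e3.symm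
      rw [← e2]
      exact (h.inv k).pres _ hk1 _ hcon
    rcases h.two hCB f3 f2 f1 with e | e
    · exact e
    · exact absurd (h1.eq_one g hg B hB.1 e) hg1
  -- count
  have hPinj : ∀ C ∈ D l, ∀ C' ∈ D l, P C = P C' → C = C' := by
    intro C hC C' hC' hCC
    rw [← hP2 C hC, hCC, hP2 C' hC']
  have hRinj : ∀ C ∈ D m, ∀ C' ∈ D m, R C = R C' → C = C' := by
    intro C hC C' hC' hCC
    rw [← hR2 C hC, hCC, hR2 C' hC']
  set X₁ : Finset Ω := (D l).filter fun C => P C ∉ 𝒢
  set X₂ : Finset Ω := (D m).filter fun C => R C ∉ 𝒢'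
  set X₃ : Finset Ω := (D l ∩ D m).filter fun C => P C = R C
  have k1 : X₁.card ≤ (E l \ 𝒢).card := by
    apply card_le_card_of_injOn P
    · intro C hC
      have hC' := mem_filter.1 (mem_coe.1 hC)
      exact mem_coe.2 (mem_sdiff.2 ⟨hP1 C hC'.1, hC'.2⟩)
    · intro C hC C' hC' hCC
      exact hPinj C (mem_filter.1 (mem_coe.1 hC)).1 C' (mem_filter.1 (mem_coe.1 hC')).1 hCC
  have k2 : X₂.card ≤ (E m \ 𝒢').card := by
    apply card_le_card_of_injOn R
    · intro C hC
      have hC' := mem_filter.1 (mem_coe.1 hC)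
      exact mem_coe.2 (mem_sdiff.2 ⟨hR1 C hC'.1, hC'.2⟩)
    · intro C hC C' hC' hCC
      exact hRinj C (mem_filter.1 (mem_coe.1 hC)).1 C' (mem_filter.1 (mem_coe.1 hC')).1 hCC
  have k3 : X₃.card ≤ 1 := by
    rw [card_le_one]
    intro C hC C' hC'
    rw [mem_filter, mem_inter] at hC hC'
    by_contra hCC
    have e1 : P C ≠ P C' := fun e => hCC (hPinj C hC.1.1 C' hC'.1.1 e)
    refine hlm (h.uniq l m _ _ e1 (hP1 C hC.1.1) (hP1 C' hC'.1.1) ?_ ?_)
    · rw [hC.2]
      exact hR1 C hC.1.2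
    · rw [hC'.2]
      exact hR1 C' hC'.1.2
  set Y : Finset Ω := (D l ∩ D m) \ (({B} ∪ X₁) ∪ (X₂ ∪ X₃)) with hY
  have hYc : 1 < Y.card := by
    have e1 := le_card_sdiff (({B} ∪ X₁) ∪ (X₂ ∪ X₃)) (D l ∩ D m)
    have e2 := card_union_le ({B} ∪ X₁) (X₂ ∪ X₃)
    have e3 := card_union_le {B} X₁
    have e4 := card_union_le X₂ X₃
    rw [card_singleton] at e3
    rw [← hY] at e1
    omega
  have hYm : ∀ C ∈ Y, g B = C := by
    intro C hC
    simp only [hY, mem_sdiff, mem_union, mem_singleton, not_or] at hC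
    obtain ⟨hC0, ⟨hC1, hC2⟩, hC3, hC4⟩ := hC
    have hC0' := mem_inter.1 hC0
    apply key C hC0 hC1
    · by_contra hcon
      exact hC2 (mem_filter.2 ⟨hC0'.1, hcon⟩)
    · by_contra hcon
      exact hC3 (mem_filter.2 ⟨hC0'.2, hcon⟩)
    · intro hcon
      exact hC4 (mem_filter.2 ⟨hC0, hcon⟩)
  obtain ⟨C, hC, C', hC', hCC⟩ := one_lt_card.1 hYc
  exact hCC ((hYm C hC).symm.trans (hYm C' hC'))

end Pool.Agent.U671.PG
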