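import Pool.Agent.U671.PG.Fr

/-!
# The union of the groups of the good lines is nearly closed under multiplication
-/

set_option autoImplicit false

namespace Pool.Agent.U671.PG

open Equiv Finset Pool.Agent.N606.ST

open scoped Classical

set_option linter.unusedSectionVars false

variable {Ω Pt Ln : Type} [Fintype Ω] [Fintype Pt] [Fintype Ln]

/-- the groups and the good points of all lines -/
structure GD (E : Ln → Finset Pt) (D : Ln → Finset Ω) (i : Pt → Perm Ω) (gd : Ln → Prop)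
    (𝒢 : Ln → Finset Pt) (G : Ln → Subgroup (Perm Ω)) : Prop where
  ld : ∀ l, LD i (E l) (D l) (𝒢 l) (G l)
  big : ∀ l, gd l → 1150 * (E l \ 𝒢 l).card ≤ 7 * (D l).card
  tr : ∀ l, gd l → ∀ A ∈ D l, ∀ B ∈ D l, ∃ g ∈ G l, g A = B
  bot : ∀ l, ¬ gd l → 𝒢 l = ∅ ∧ G l = ⊥

variable {n : ℕ} {E : Ln → Finset Pt} {D : Ln → Finset Ω} {i : Pt → Perm Ω}

/-- the number of bad triples on a line -/
noncomputable def bd (E : Ln → Finset Pt) (i : Pt → Perm Ω) (l : Ln) : ℕ :=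
  ((E l ×ˢ E l ×ˢ E l).filter fun t => Bad i t.1 t.2.1 t.2.2).card

theorem exists_GD (h : Fr n E D i) (hn : 2 ≤ n) :
    ∃ 𝒢 G, GD E D i (fun l => 1150 * bd E i l ≤ (D l).card ^ 3) 𝒢 G := by
  have key : ∀ l, ∃ (𝒢 : Finset Pt) (G : Subgroup (Perm Ω)), LD i (E l) (D l) 𝒢 G ∧
      (1150 * bd E i l ≤ (D l).card ^ 3 → 1150 * (E l \ 𝒢).card ≤ 7 * (D l).card ∧
        ∀ A ∈ D l, ∀ B ∈ D l, ∃ g ∈ G, g A = B) ∧
      (¬ 1150 * bd E i l ≤ (D l).card ^ 3 → 𝒢 = ∅ ∧ G = ⊥) := by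
    intro l
    by_cases hl : 1150 * bd E i l ≤ (D l).card ^ 3
    · obtain ⟨Q, hQ, hb⟩ : ∃ Q ∈ E l,
          1150 * ((E l ×ˢ E l).filter fun p => Bad i p.1 Q p.2).card ≤ (D l).card ^ 2 := by
        by_contra hcon
        push Not at hcon
        have h1 : bd E i l = ∑ Q ∈ E l, ((E l ×ˢ E l).filter fun p => Bad i p.1 Q p.2).card := by
          unfold bd
          simp only [card_filter, sum_product]
          rw [sum_comm]
        have h2 : ∑ Q ∈ E l, ((D l).card ^ 2 + 1) ≤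
            ∑ Q ∈ E l, 1150 * ((E l ×ˢ E l).filter fun p => Bad i p.1 Q p.2).card :=
          sum_le_sum fun Q hQ => hcon Q hQ
        rw [← mul_sum, ← h1, sum_const, smul_eq_mul, h.cE hn] at h2
        have h3 : 0 < (D l).card := card_pos.2 (h.nonempty hn l)
        nlinarith
      obtain ⟨𝒢, G, h1, h2, h3⟩ := exists_LD (h.inv l) (h.nonempty hn l) hQ hb
      exact ⟨𝒢, G, h1, fun _ => ⟨h2, h3⟩, fun h4 => absurd hl h4⟩
    · refine ⟨∅, ⊥, ⟨?_, ?_, ?_, ?_, ?_⟩, fun h4 => absurd h4 hl, fun _ => ⟨rfl, rfl⟩⟩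
      · simp
      · simp
      · intro g hg A _
        rw [Subgroup.mem_bot] at hg
        rw [hg]; rfl
      · intro g hg _ _ _
        rwa [Subgroup.mem_bot] at hg
      · simp
  choose 𝒢 G h1 h2 h3 using key
  exact ⟨𝒢, G, ⟨h1, fun l hl => (h2 l hl).1, fun l hl => (h2 l hl).2, h3⟩⟩

variable {gd : Ln → Prop} {𝒢 : Ln → Finset Pt} {G : Ln → Subgroup (Perm Ω)}

/-- the union of the groups -/
noncomputable def XX (G : Ln → Subgroup (Perm Ω)) : Finset (Perm Ω) :=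
  univ.filter fun g => ∃ l, g ∈ G l

theorem mem_XX {g : Perm Ω} : g ∈ XX G ↔ ∃ l, g ∈ G l := by simp [XX]

/-- the elements of a group -/
noncomputable def fin (H : Subgroup (Perm Ω)) : Finset (Perm Ω) := univ.filter fun g => g ∈ H

theorem mem_fin {H : Subgroup (Perm Ω)} {g : Perm Ω} : g ∈ fin H ↔ g ∈ H := by simp [fin]

section

variable (h : Fr n E D i) (k : GD E D i gd 𝒢 G)

include h k

theorem inter_eq (hn : 20 ≤ n) {l m : Ln} (hlm : l ≠ m) {g : Perm Ω} (hg : g ∈ G l)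
    (hg' : g ∈ G m) : g = 1 := by
  by_cases hl : gd l
  · by_cases hm : gd m
    · exact h.inter hn hlm (k.ld l) (k.ld m) (k.big l hl) (k.big m hm) hg hg'
    · rw [(k.bot m hm).2] at hg'
      exact Subgroup.mem_bot.1 hg'
  · rw [(k.bot l hl).2] at hg
    exact Subgroup.mem_bot.1 hg

theorem card_fin_le (hn : 2 ≤ n) (l : Ln) : (fin (G l)).card ≤ (D l).card := by
  obtain ⟨A, hA⟩ := h.nonempty hn l
  apply card_le_card_of_injOn fun g => g A
  · intro g hg
    have hg' := mem_fin.1 (mem_coe.1 hg)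
    exact mem_coe.2 (mem_of_off ((k.ld l).off g hg') hA)
  · intro g hg g' hg' hgg
    have hg := mem_fin.1 (mem_coe.1 hg)
    have hg' := mem_fin.1 (mem_coe.1 hg')
    have h1 : g⁻¹ * g' = 1 := by
      apply (k.ld l).eq_one _ ((G l).mul_mem ((G l).inv_mem hg) hg') A hA
      rw [Perm.mul_apply, Perm.inv_eq_iff_eq]
      exact hgg.symm
    rw [inv_mul_eq_one] at h1
    exact h1

theorem card_fin_ge {l : Ln} (hl : gd l) (hn : 2 ≤ n) : (D l).card ≤ (fin (G l)).card := by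
  obtain ⟨A, hA⟩ := h.nonempty hn l
  have h1 : D l ⊆ (fin (G l)).image fun g => g A := by
    intro B hB
    obtain ⟨g, hg, h2⟩ := k.tr l hl A hA B hB
    rw [mem_image]
    exact ⟨g, mem_fin.2 hg, h2⟩
  exact (card_le_card h1).trans card_image_le

omit k in
theorem sum_D : ∑ l, (D l).card = (n + 1) * n ^ 2 := by
  have h1 : ∀ l, (D l).card = ∑ A : Ω, if A ∈ D l then 1 else 0 := by
    intro l
    rw [← card_filter]
    congr 1
    ext A
    simp
  simp only [h1]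
  rw [sum_comm]
  have h2 : ∀ A : Ω, ∑ l : Ln, (if A ∈ D l then 1 else 0) = n ^ 2 := by
    intro A
    rw [← card_filter]
    have h3 := h.thru A
    have h4 := card_filter_add_card_filter_not (s := (univ : Finset Ln)) (fun l => A ∈ D l)
    rw [card_univ, h.cL] at h4
    omega
  rw [sum_congr rfl fun A _ => h2 A, sum_const, smul_eq_mul, card_univ, h.cΩ]

theorem card_XX (hn : 2 ≤ n) : (XX G).card + n ≤ n ^ 3 := by
  have h1 : XX G ⊆ {1} ∪ univ.biUnion fun l => (fin (G l)).erase 1 := by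
    intro g hg
    rw [mem_XX] at hg
    obtain ⟨l, hl⟩ := hg
    rw [mem_union, mem_singleton, mem_biUnion]
    by_cases hg1 : g = 1
    · exact Or.inl hg1
    · exact Or.inr ⟨l, mem_univ _, mem_erase.2 ⟨hg1, mem_fin.2 hl⟩⟩
  have h2 := (card_le_card h1).trans (card_union_le _ _)
  have h3 : (univ.biUnion fun l => (fin (G l)).erase 1).card ≤ ∑ l : Ln, ((D l).card - 1) := by
    refine card_biUnion_le.trans (sum_le_sum ?_)
    intro l _
    rw [card_erase_of_mem (mem_fin.2 (G l).one_mem)]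
    have := card_fin_le h k hn l
    omega
  have h4 : ∑ l : Ln, ((D l).card - 1) + ∑ l : Ln, 1 = (n + 1) * n ^ 2 := by
    rw [← sum_add_distrib, ← sum_D h]
    apply sum_congr rfl
    intro l _
    have := card_pos.2 (h.nonempty hn l)
    omega
  rw [sum_const, smul_eq_mul, mul_one, card_univ, h.cL] at h4
  rw [card_singleton] at h2
  have h5 : (n + 1) * n ^ 2 = n ^ 3 + n ^ 2 := by ring
  omega

end

/-- two distinct good points on a good line -/
def Fn (𝒢 : Ln → Finset Pt) (P R : Pt) : Prop := P ≠ R ∧ ∃ l, P ∈ 𝒢 l ∧ R ∈ 𝒢 l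

theorem Fn.symm {P R : Pt} (hf : Fn 𝒢 P R) : Fn 𝒢 R P :=
  ⟨hf.1.symm, hf.2.imp fun _ hl => ⟨hl.2, hl.1⟩⟩

/-- the pairs that are not fine -/
noncomputable def NF (𝒢 : Ln → Finset Pt) : Finset (Pt × Pt) :=
  univ.filter fun p => ¬ Fn 𝒢 p.1 p.2

/-- the fine triangles -/
noncomputable def TT (E : Ln → Finset Pt) (𝒢 : Ln → Finset Pt) : Finset (Pt × Pt × Pt) :=
  univ.filter fun t => Fn 𝒢 t.1 t.2.1 ∧ Fn 𝒢 t.2.1 t.2.2 ∧ Fn 𝒢 t.1 t.2.2 ∧
    ¬ ∃ l, t.1 ∈ E l ∧ t.2.1 ∈ E l ∧ t.2.2 ∈ E l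

section

variable (h : Fr n E D i) (k : GD E D i gd 𝒢 G)

include h k

theorem card_NF (hn : 2 ≤ n) : 1150 * (NF 𝒢).card ≤ 1150 * n ^ 2 +
    (n ^ 2 + n + 1) * (14 * (n + 1) ^ 2) +
    (univ.filter fun l => ¬ gd l).card * (1150 * (n + 1) ^ 2) := by
  have h1 : NF 𝒢 ⊆ (univ : Finset Pt).diag ∪
      univ.biUnion fun l => ((E l \ 𝒢 l) ×ˢ E l) ∪ (E l ×ˢ (E l \ 𝒢 l)) := by
    rintro ⟨P, R⟩ hp
    rw [NF, mem_filter] at hp
    rw [mem_union, mem_diag, mem_biUnion]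
    by_cases hPR : P = R
    · exact Or.inl ⟨mem_univ _, hPR⟩
    · obtain ⟨l, hl1, hl2⟩ := h.join P R hPR
      refine Or.inr ⟨l, mem_univ _, ?_⟩
      rw [mem_union, mem_product, mem_product, mem_sdiff, mem_sdiff]
      by_contra hcon
      push Not at hcon
      apply hp.2
      refine ⟨hPR, l, ?_, ?_⟩
      · by_contra h2
        exact hcon.1 ⟨hl1, h2⟩ hl2
      · by_contra h2
        exact h2 (hcon.2 hl1 hl2)
  have h2 := (card_le_card h1).trans (card_union_le _ _)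
  rw [diag_card, card_univ, h.cP] at h2
  have h3 : ∀ l : Ln, 1150 * (((E l \ 𝒢 l) ×ˢ E l) ∪ (E l ×ˢ (E l \ 𝒢 l))).card ≤
      14 * (n + 1) ^ 2 + if ¬ gd l then 1150 * (n + 1) ^ 2 else 0 := by
    intro l
    have hc := (h.cD' l).2
    have hE := h.cE hn l
    by_cases hl : gd l
    · rw [if_neg (by simpa using hl), add_zero]
      have e1 := card_union_le ((E l \ 𝒢 l) ×ˢ E l) (E l ×ˢ (E l \ 𝒢 l))
      rw [card_product, card_product, hE] at e1
      have e2 := k.big l hl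
      have e3 : (D l).card * (1150 * (E l \ 𝒢 l).card) ≤ (D l).card * (7 * (D l).card) :=
        Nat.mul_le_mul_left _ e2
      have e4 : (D l).card * (D l).card ≤ (n + 1) * (n + 1) := Nat.mul_le_mul hc hc
      nlinarith
    · rw [if_pos hl]
      have e1 : ((E l \ 𝒢 l) ×ˢ E l) ∪ (E l ×ˢ (E l \ 𝒢 l)) ⊆ E l ×ˢ E l := by
        apply union_subset
        · exact product_subset_product sdiff_subset (Subset.refl _)
        · exact product_subset_product (Subset.refl _) sdiff_subset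
      have e2 := card_le_card e1
      rw [card_product, hE] at e2
      have e4 : (D l).card * (D l).card ≤ (n + 1) * (n + 1) := Nat.mul_le_mul hc hc
      nlinarith
  have h4 : 1150 * (univ.biUnion fun l => ((E l \ 𝒢 l) ×ˢ E l) ∪ (E l ×ˢ (E l \ 𝒢 l))).card ≤
      ∑ l : Ln, (14 * (n + 1) ^ 2 + if ¬ gd l then 1150 * (n + 1) ^ 2 else 0) := by
    calc _ ≤ 1150 * ∑ l : Ln, (((E l \ 𝒢 l) ×ˢ E l) ∪ (E l ×ˢ (E l \ 𝒢 l))).card :=
          Nat.mul_le_mul_left _ card_biUnion_le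
      _ = ∑ l : Ln, 1150 * (((E l \ 𝒢 l) ×ˢ E l) ∪ (E l ×ˢ (E l \ 𝒢 l))).card := mul_sum _ _ _
      _ ≤ _ := sum_le_sum fun l _ => h3 l
  rw [sum_add_distrib, sum_const, smul_eq_mul, card_univ, h.cL, ← sum_filter, sum_const,
    smul_eq_mul] at h4
  omega

omit k in
theorem card_TT (hn : 2 ≤ n) : n ^ 6 ≤ (TT E 𝒢).card + 3 * ((NF 𝒢).card * n ^ 2) +
    n ^ 4 * (n + 1) := by
  set S₁ : Finset (Pt × Pt × Pt) := univ.filter fun t => ¬ Fn 𝒢 t.1 t.2.1 with hS₁
  set S₂ : Finset (Pt × Pt × Pt) := univ.filter fun t => ¬ Fn 𝒢 t.2.1 t.2.2 with hS₂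
  set S₃ : Finset (Pt × Pt × Pt) := univ.filter fun t => ¬ Fn 𝒢 t.1 t.2.2 with hS₃
  set S₄ : Finset (Pt × Pt × Pt) := univ.filter fun t => t.1 ≠ t.2.1 ∧
    ∃ l, t.1 ∈ E l ∧ t.2.1 ∈ E l ∧ t.2.2 ∈ E l with hS₄
  have hsub : (univ : Finset (Pt × Pt × Pt)) ⊆ TT E 𝒢 ∪ ((S₁ ∪ S₂) ∪ (S₃ ∪ S₄)) := by
    intro t _
    simp only [TT, hS₁, hS₂, hS₃, hS₄, mem_union, mem_filter, mem_univ, true_and]
    by_cases h1 : Fn 𝒢 t.1 t.2.1
    · have h2 := h1.1
      tauto
    · tauto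
  have h1 := card_le_card hsub
  have h2 := card_union_le (TT E 𝒢) ((S₁ ∪ S₂) ∪ (S₃ ∪ S₄))
  have h3 := card_union_le (S₁ ∪ S₂) (S₃ ∪ S₄)
  have h4 := card_union_le S₁ S₂
  have h5 := card_union_le S₃ S₄
  rw [card_univ, Fintype.card_prod, Fintype.card_prod, h.cP] at h1
  have c1 : S₁.card ≤ (NF 𝒢).card * n ^ 2 := by
    have e1 : S₁.card ≤ (NF 𝒢 ×ˢ (univ : Finset Pt)).card := by
      apply card_le_card_of_injOn fun t => ((t.1, t.2.1), t.2.2)
      · intro t ht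
        have ht := (mem_filter.1 (mem_coe.1 ht)).2
        exact mem_coe.2 (mem_product.2 ⟨mem_filter.2 ⟨mem_univ _, ht⟩, mem_univ _⟩)
      · rintro ⟨P, U, R⟩ _ ⟨P', U', R'⟩ _ he
        simp only [Prod.mk.injEq] at he
        rw [he.1.1, he.1.2, he.2]
    rwa [card_product, card_univ, h.cP] at e1
  have c2 : S₂.card ≤ (NF 𝒢).card * n ^ 2 := by
    have e1 : S₂.card ≤ (NF 𝒢 ×ˢ (univ : Finset Pt)).card := by
      apply card_le_card_of_injOn fun t => ((t.2.1, t.2.2), t.1)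
      · intro t ht
        have ht := (mem_filter.1 (mem_coe.1 ht)).2
        exact mem_coe.2 (mem_product.2 ⟨mem_filter.2 ⟨mem_univ _, ht⟩, mem_univ _⟩)
      · rintro ⟨P, U, R⟩ _ ⟨P', U', R'⟩ _ he
        simp only [Prod.mk.injEq] at he
        rw [he.1.1, he.1.2, he.2]
    rwa [card_product, card_univ, h.cP] at e1
  have c3 : S₃.card ≤ (NF 𝒢).card * n ^ 2 := by
    have e1 : S₃.card ≤ (NF 𝒢 ×ˢ (univ : Finset Pt)).card := by
      apply card_le_card_of_injOn fun t => ((t.1, t.2.2), t.2.1)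
      · intro t ht
        have ht := (mem_filter.1 (mem_coe.1 ht)).2
        exact mem_coe.2 (mem_product.2 ⟨mem_filter.2 ⟨mem_univ _, ht⟩, mem_univ _⟩)
      · rintro ⟨P, U, R⟩ _ ⟨P', U', R'⟩ _ he
        simp only [Prod.mk.injEq] at he
        rw [he.1.1, he.1.2, he.2]
    rwa [card_product, card_univ, h.cP] at e1
  have c4 : S₄.card ≤ n ^ 4 * (n + 1) := by
    rw [hS₄, card_filter, Fintype.sum_prod_type]
    have e1 : ∀ P : Pt, ∑ u : Pt × Pt, (if P ≠ u.1 ∧ ∃ l, P ∈ E l ∧ u.1 ∈ E l ∧ u.2 ∈ E l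
        then 1 else 0) ≤ n ^ 2 * (n + 1) := by
      intro P
      rw [Fintype.sum_prod_type]
      have e2 : ∀ U : Pt, ∑ R : Pt, (if P ≠ U ∧ ∃ l, P ∈ E l ∧ U ∈ E l ∧ R ∈ E l
          then 1 else 0) ≤ n + 1 := by
        intro U
        by_cases hPU : P = U
        · simp [hPU]
        · obtain ⟨l, hl1, hl2⟩ := h.join P U hPU
          rw [← card_filter]
          have e3 : (univ.filter fun R => P ≠ U ∧ ∃ l, P ∈ E l ∧ U ∈ E l ∧ R ∈ E l) ⊆ E l := by
            intro R hR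
            rw [mem_filter] at hR
            obtain ⟨_, _, m, hm1, hm2, hm3⟩ := hR
            rw [h.uniq l m P U hPU hl1 hl2 hm1 hm2]
            exact hm3
          have e4 := card_le_card e3
          rw [h.cE hn] at e4
          exact e4.trans (h.cD' l).2
      have e3 := sum_le_sum fun U (_ : U ∈ (univ : Finset Pt)) => e2 U
      rw [sum_const, smul_eq_mul, card_univ, h.cP] at e3
      exact e3
    have e3 := sum_le_sum fun P (_ : P ∈ (univ : Finset Pt)) => e1 P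
    rw [sum_const, smul_eq_mul, card_univ, h.cP] at e3
    refine e3.trans (le_of_eq ?_)
    ring
  have h6 : n ^ 2 * (n ^ 2 * n ^ 2) = n ^ 6 := by ring
  omega

theorem TT_le (hn : 20 ≤ n) : (TT E 𝒢).card + (badPairs (XX G)).card ≤ (XX G).card ^ 2 := by
  have h1 : (TT E 𝒢).card ≤
      ((XX G ×ˢ XX G).filter fun p => ¬ (p.1 * p.2 ∉ XX G)).card := by
    apply card_le_card_of_injOn fun t => (i t.1 * i t.2.1, i t.2.1 * i t.2.2)
    · rintro ⟨P, U, R⟩ ht
      have ht := mem_coe.1 ht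
      simp only [TT, mem_filter, mem_univ, true_and] at ht
      obtain ⟨⟨_, l, hl1, hl2⟩, ⟨_, m, hm1, hm2⟩, ⟨_, r, hr1, hr2⟩, _⟩ := ht
      apply mem_coe.2
      rw [mem_filter, mem_product, not_not]
      refine ⟨⟨mem_XX.2 ⟨l, (k.ld l).mem P hl1 U hl2⟩, mem_XX.2 ⟨m, (k.ld m).mem U hm1 R hm2⟩⟩, ?_⟩
      rw [mem_XX]
      refine ⟨r, ?_⟩
      have e1 : i P * i U * (i U * i R) = i P * i R := by
        rw [mul_assoc, ← mul_assoc (i U), (h.inv l).inv, one_mul]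
      show i P * i U * (i U * i R) ∈ G r
      rw [e1]
      exact (k.ld r).mem P hr1 R hr2
    · rintro ⟨P, U, R⟩ ht ⟨P', U', R'⟩ ht' he
      have ht := mem_coe.1 ht
      have ht' := mem_coe.1 ht'
      simp only [TT, mem_filter, mem_univ, true_and] at ht ht'
      obtain ⟨⟨hPU, l, hl1, hl2⟩, ⟨hUR, m, hm1, hm2⟩, _, hcol⟩ := ht
      obtain ⟨⟨_, l', hl1', hl2'⟩, ⟨_, m', hm1', hm2'⟩, _, _⟩ := ht'
      simp only [Prod.mk.injEq] at he
      obtain ⟨he1, he2⟩ := he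
      have inj : ∀ l, ∀ P ∈ E l, ∀ Q ∈ E l, i P = i Q → P = Q := by
        intro l P hP Q hQ hPQ
        obtain ⟨A, hA⟩ := h.nonempty (by omega) l
        exact (h.inv l).inj A hA P hP Q hQ (by rw [hPQ])
      have ne1 : ∀ l, ∀ P ∈ E l, ∀ Q ∈ E l, P ≠ Q → i P * i Q ≠ 1 := by
        intro l P hP Q hQ hPQ h2
        apply hPQ
        apply inj l P hP Q hQ
        have h3 := mul_eq_one_iff_eq_inv.1 h2
        rw [h3]
        exact inv_eq_of_mul_eq_one_left ((h.inv l).inv Q)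
      have s1 := (k.ld l).sub
      have s2 := (k.ld m).sub
      have s1' := (k.ld l').sub
      have s2' := (k.ld m').sub
      have hll : l = l' := by
        by_contra hcon
        refine ne1 l P (s1 hl1) U (s1 hl2) hPU (inter_eq h k hn hcon ((k.ld l).mem P hl1 U hl2) ?_)
        rw [he1]
        exact (k.ld l').mem _ hl1' _ hl2'
      have hmm : m = m' := by
        by_contra hcon
        refine ne1 m U (s2 hm1) R (s2 hm2) hUR (inter_eq h k hn hcon ((k.ld m).mem U hm1 R hm2) ?_)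
        rw [he2]
        exact (k.ld m').mem _ hm1' _ hm2'
      subst hll hmm
      have hUU : U = U' := by
        by_contra hcon
        have hlm : l = m := h.uniq l m U U' hcon (s1 hl2) (s1 hl2') (s2 hm1) (s2 hm1')
        subst hlm
        exact hcol ⟨l, s1 hl1, s1 hl2, s1 hm2⟩
      subst hUU
      have hPP : P = P' := inj l P (s1 hl1) P' (s1 hl1') (mul_right_cancel he1)
      have hRR : R = R' := inj m R (s2 hm2) R' (s2 hm2') (mul_left_cancel he2)
      rw [hPP, hRR]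
  have h2 := card_filter_add_card_filter_not (s := XX G ×ˢ XX G) (fun p => p.1 * p.2 ∉ XX G)
  rw [card_product] at h2
  have h3 : (badPairs (XX G)).card = ((XX G ×ˢ XX G).filter fun p => p.1 * p.2 ∉ XX G).card := rfl
  rw [sq]
  omega

end

end Pool.Agent.U671.PG
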