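import Pool.Agent.U671.PG.Alg

/-!
# The group of a line
-/

set_option autoImplicit false

namespace Pool.Agent.U671.PG

open Equiv Finset

open scoped Classical

set_option linter.unusedSectionVars false

variable {Ω Pt : Type} [Fintype Ω]

/-- A family of involutions `i P`, `P ∈ E`, which preserve `D`, act sharply transitively on `D`
and agree off `D`. -/
structure Inv (i : Pt → Perm Ω) (E : Finset Pt) (D : Finset Ω) : Prop where
  inv : ∀ P, i P * i P = 1
  pres : ∀ P ∈ E, ∀ A ∈ D, i P A ∈ D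
  off : ∀ P ∈ E, ∀ Q ∈ E, ∀ A, A ∉ D → i P A = i Q A
  sh : ∀ A ∈ D, ∀ B ∈ D, ∃ P ∈ E, i P A = B
  inj : ∀ A ∈ D, ∀ P ∈ E, ∀ Q ∈ E, i P A = i Q A → P = Q

/-- the product of the three involutions is not an involution -/
def Bad (i : Pt → Perm Ω) (P Q R : Pt) : Prop := (i P * i Q * i R) * (i P * i Q * i R) ≠ 1

/-- A set `𝒢` of points on a line and a group `G` belonging to it. -/
structure LD (i : Pt → Perm Ω) (E : Finset Pt) (D : Finset Ω) (𝒢 : Finset Pt)
    (G : Subgroup (Perm Ω)) : Prop where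
  sub : 𝒢 ⊆ E
  mem : ∀ P ∈ 𝒢, ∀ R ∈ 𝒢, i P * i R ∈ G
  off : ∀ g ∈ G, ∀ A, A ∉ D → g A = A
  eq_one : ∀ g ∈ G, ∀ A ∈ D, g A = A → g = 1
  conj : ∀ P ∈ 𝒢, ∀ g ∈ G, i P * g * i P = g⁻¹

theorem fam {i : Pt → Perm Ω} {E : Finset Pt} {D : Finset Ω} (h : Inv i E D) {Q : Pt}
    (hQ : Q ∈ E) : Fam D E fun P => i P * i Q where
  off := by
    intro P hP A hA
    have h1 : i Q (i Q A) = A := by
      have := congrArg (fun k : Perm Ω => k A) (h.inv Q)
      simpa using this
    have h2 : i Q A ∉ D := by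
      intro h3
      have := h.pres Q hQ _ h3
      rw [h1] at this
      exact hA this
    rw [Perm.mul_apply, h.off P hP Q hQ _ h2, h1]
  sh := by
    intro A hA B hB
    obtain ⟨P, hP, h1⟩ := h.sh _ (h.pres Q hQ A hA) B hB
    exact ⟨P, hP, h1⟩
  inj := by
    intro A hA P hP R hR h1
    exact h.inj _ (h.pres Q hQ A hA) P hP R hR h1

theorem commute_iff {i : Pt → Perm Ω} (hi : ∀ P, i P * i P = 1) (P Q R : Pt) :
    Commute (i P * i Q) (i R * i Q) ↔ ¬ Bad i P Q R := by
  have hinv : ∀ P, (i P)⁻¹ = i P := fun P => inv_eq_of_mul_eq_one_left (hi P)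
  unfold Bad
  rw [not_not, mul_eq_one_iff_eq_inv, mul_inv_rev, mul_inv_rev, hinv, hinv, hinv]
  constructor
  · intro h
    have h1 := h.eq
    have h2 : i P * i Q * i R = (i P * i Q * (i R * i Q)) * i Q := by
      simp only [mul_assoc, hi, mul_one]
    rw [h2, h1]
    simp only [mul_assoc, hi, mul_one]
  · intro h
    show i P * i Q * (i R * i Q) = i R * i Q * (i P * i Q)
    rw [← mul_assoc, h]
    simp only [mul_assoc]

theorem exists_LD {i : Pt → Perm Ω} {E : Finset Pt} {D : Finset Ω} (h : Inv i E D)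
    (hD : D.Nonempty) {Q : Pt} (hQ : Q ∈ E)
    (hb : 1150 * ((E ×ˢ E).filter fun p => Bad i p.1 Q p.2).card ≤ D.card ^ 2) :
    ∃ 𝒢 G, LD i E D 𝒢 G ∧ 1150 * (E \ 𝒢).card ≤ 7 * D.card ∧
      ∀ A ∈ D, ∀ B ∈ D, ∃ g ∈ G, g A = B := by
  have hf := fam h hQ
  set x : Pt → Perm Ω := fun P => i P * i Q with hx
  have hED := hf.card_eq hD
  have h0 : 0 < D.card := card_pos.2 hD
  have hsum : ∑ P ∈ E, (NC E x (x P)).card = ((E ×ˢ E).filter fun p => Bad i p.1 Q p.2).card := by
    rw [card_filter, sum_product]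
    apply sum_congr rfl
    intro P _
    rw [← card_filter]
    congr 1
    ext R
    rw [mem_NC, mem_filter, hx]
    simp only [commute_iff h.inv, not_not]
  -- the good points
  have hbig : 1150 * (E \ hf.good).card ≤ 7 * D.card := by
    have h1 : ∀ P ∈ E \ hf.good, D.card ≤ 7 * (NC E x (x P)).card := by
      intro P hP
      rw [mem_sdiff, hf.mem_good] at hP
      by_contra hcon
      exact hP.2 ⟨hP.1, by omega⟩
    have h2 := card_nsmul_le_sum _ _ _ h1
    rw [smul_eq_mul, ← mul_sum] at h2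
    have h3 : ∑ P ∈ E \ hf.good, (NC E x (x P)).card ≤ ∑ P ∈ E, (NC E x (x P)).card :=
      sum_le_sum_of_subset sdiff_subset
    rw [hsum] at h3
    have h4 : (1150 * (E \ hf.good).card) * D.card ≤ (7 * D.card) * D.card := by
      nlinarith
    exact Nat.le_of_mul_le_mul_right h4 h0
  have hcomm : ∀ P ∈ hf.good, ∀ R ∈ hf.good, Commute (x P) (x R) := fun P hP R hR =>
    hf.good_comm hD (by omega) hP hR
  set G : Subgroup (Perm Ω) := Subgroup.closure (x '' hf.good) with hG
  have hxG : ∀ P ∈ hf.good, x P ∈ G := fun P hP =>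
    Subgroup.subset_closure ⟨P, by exact_mod_cast hP, rfl⟩
  have hoff : ∀ g ∈ G, ∀ A, A ∉ D → g A = A := by
    intro g hg A hA
    induction hg using Subgroup.closure_induction with
    | mem g hg =>
      obtain ⟨P, hP, rfl⟩ := hg
      exact hf.off P (hf.mem_good.1 (by exact_mod_cast hP)).1 A hA
    | one => rfl
    | mul g g' _ _ h1 h2 => rw [Perm.mul_apply, h2, h1]
    | inv g _ h1 => rw [Perm.inv_eq_iff_eq, h1]
  have hcx : ∀ g ∈ G, ∀ P ∈ hf.good, Commute g (x P) := by
    intro g hg P hP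
    induction hg using Subgroup.closure_induction with
    | mem g hg =>
      obtain ⟨R, hR, rfl⟩ := hg
      exact hcomm R (by exact_mod_cast hR) P hP
    | one => exact Commute.one_left _
    | mul g g' _ _ h1 h2 => exact h1.mul_left h2
    | inv g _ h1 => exact h1.inv_left
  have hcG : ∀ g ∈ G, ∀ g' ∈ G, Commute g g' := by
    intro g hg g' hg'
    induction hg' using Subgroup.closure_induction with
    | mem g' hg' =>
      obtain ⟨R, hR, rfl⟩ := hg'
      exact hcx g hg R (by exact_mod_cast hR)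
    | one => exact Commute.one_right _
    | mul _ _ _ _ h1 h2 => exact h1.mul_right h2
    | inv _ _ h1 => exact h1.inv_right
  have hQc : ∀ g ∈ G, i Q * g * i Q = g⁻¹ := by
    intro g hg
    induction hg using Subgroup.closure_induction with
    | mem g hg =>
      obtain ⟨R, hR, rfl⟩ := hg
      have hinv : ∀ P, (i P)⁻¹ = i P := fun P => inv_eq_of_mul_eq_one_left (h.inv P)
      rw [hx]
      simp only
      rw [mul_inv_rev, hinv, hinv, mul_assoc, mul_assoc, h.inv, mul_one]
    | one => rw [mul_one, h.inv, inv_one]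
    | mul g g' hg hg' h1 h2 =>
      have h3 : i Q * (g * g') * i Q = (i Q * g * i Q) * (i Q * g' * i Q) := by
        have h4 : (i Q * g * i Q) * (i Q * g' * i Q) = i Q * g * (i Q * i Q) * g' * i Q := by
          simp only [mul_assoc]
        rw [h4, h.inv, mul_one]
        simp only [mul_assoc]
      rw [h3, h1, h2, ← mul_inv_rev, (hcG g hg g' hg').eq]
    | inv g _ h1 =>
      have h2 : i Q * g⁻¹ * i Q = (i Q * g * i Q)⁻¹ := by
        have hinv : ∀ P, (i P)⁻¹ = i P := fun P => inv_eq_of_mul_eq_one_left (h.inv P)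
        rw [mul_inv_rev, mul_inv_rev, hinv, mul_assoc]
      rw [h2, h1]
  refine ⟨hf.good, G, ⟨fun P hP => (hf.mem_good.1 hP).1, ?_, hoff, ?_, ?_⟩, hbig, ?_⟩
  · intro P hP R hR
    have h1 : i P * i R = x P * (x R)⁻¹ := by
      rw [hx]
      simp only
      rw [mul_inv_rev, inv_eq_of_mul_eq_one_left (h.inv R), inv_eq_of_mul_eq_one_left (h.inv Q)]
      rw [← mul_assoc, mul_assoc (i P), h.inv, mul_one]
    rw [h1]
    exact G.mul_mem (hxG P hP) (G.inv_mem (hxG R hR))
  · intro g hg A hA hgA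
    apply hf.eq_one (hoff g hg) _ hA hgA
    have h1 : (NC E x g).card ≤ (E \ hf.good).card := by
      apply card_le_card
      intro j hj
      rw [mem_NC] at hj
      rw [mem_sdiff]
      exact ⟨hj.1, fun h2 => hj.2 (hcx g hg j h2)⟩
    omega
  · intro P hP g hg
    have h1 : i P = x P * i Q := by
      rw [hx]
      simp only
      rw [mul_assoc, h.inv, mul_one]
    have h2 : i P = i Q * (x P)⁻¹ := by
      rw [hx]
      simp only
      rw [mul_inv_rev, inv_eq_of_mul_eq_one_left (h.inv P), inv_eq_of_mul_eq_one_left (h.inv Q),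
        ← mul_assoc, h.inv, one_mul]
    calc i P * g * i P = (x P * i Q) * g * (i Q * (x P)⁻¹) := by rw [← h1, ← h2]
      _ = x P * (i Q * g * i Q) * (x P)⁻¹ := by simp only [mul_assoc]
      _ = g⁻¹ := by
        rw [hQc g hg]
        have h3 := (hcG (x P) (hxG P hP) g⁻¹ (G.inv_mem hg)).eq
        rw [h3, mul_inv_cancel_right]
  · intro A hA B hB
    set I₁ : Finset Ω := hf.good.image fun j => x j A with hI₁
    set I₂ : Finset Ω := hf.good.image fun j => x j B with hI₂
    have c : ∀ A ∈ D, (hf.good.image fun j => x j A).card = hf.good.card ∧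
        (hf.good.image fun j => x j A) ⊆ D := by
      intro A hA
      constructor
      · apply card_image_of_injOn
        intro P hP R hR hPR
        exact hf.inj A hA P (hf.mem_good.1 (by exact_mod_cast hP)).1 R
          (hf.mem_good.1 (by exact_mod_cast hR)).1 hPR
      · intro C hC
        rw [mem_image] at hC
        obtain ⟨j, hj, rfl⟩ := hC
        exact mem_of_off (hf.off j (hf.mem_good.1 hj).1) hA
    have hgc : hf.good.card + (E \ hf.good).card = E.card := by
      rw [add_comm]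
      apply card_sdiff_add_card_eq_card
      intro P hP
      exact (hf.mem_good.1 hP).1
    obtain ⟨C, hC⟩ : (I₁ ∩ I₂).Nonempty := by
      by_contra hcon
      rw [not_nonempty_iff_eq_empty, ← disjoint_iff_inter_eq_empty] at hcon
      have h2 := card_le_card (union_subset (c A hA).2 (c B hB).2)
      rw [card_union_of_disjoint hcon, (c A hA).1, (c B hB).1] at h2
      omega
    rw [mem_inter, hI₁, hI₂, mem_image, mem_image] at hC
    obtain ⟨⟨j, hj, h2⟩, k, hk, h3⟩ := hC
    refine ⟨(x k)⁻¹ * x j, G.mul_mem (G.inv_mem (hxG k hk)) (hxG j hj), ?_⟩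
    rw [Perm.mul_apply, h2, ← h3, ia]

end Pool.Agent.U671.PG
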